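import Pool.Agent.H80.T3.K.KStm


/-!
# MP_2b43a6_pr, project T3: row D4, the laws of the next level, lanes
-/

set_option autoImplicit false

namespace Pool.Agent.H80.T3.K

open Finset
open Pool.Agent.H92.Frog.K (dg ofL BIf)

theorem d4_band {a b : Bool} (h : band a b = true) : a = true ∧ b = true := by
  cases a
  · exact Bool.noConfusion (show false = true from h)
  · exact ⟨rfl, h⟩

theorem d4_rep (n c : ℕ) : rep n c = ofL (fun _ => c) n := by
  have h1 : rep n c = c * ((2 ^ (64 * n) - 1) / (2 ^ 64 - 1)) := rfl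
  have h2 : ∑ k ∈ range n, (2 ^ 64) ^ k = ((2 ^ 64) ^ n - 1) / (2 ^ 64 - 1) :=
    Nat.geomSum_eq (by norm_num) n
  rw [h1, pow_mul, ← h2, mul_sum]
  unfold ofL
  exact sum_congr rfl fun k _ => by rw [pow_mul]

theorem d4_B64 : B64 = BIf 64 := by
  have h2 : Nat.pow 2 63 = 2 ^ 63 := rfl
  unfold B64 BIf
  rw [h2]
  exact d4_rep 64 (2 ^ 63)

/-- packed vector with a bound -/
def Pk (X : ℕ) (f : ℕ → ℕ) (B : ℕ) : Prop := X = ofL f 64 ∧ ∀ l < 64, f l ≤ B

theorem pk_add {X Y B C : ℕ} {f g : ℕ → ℕ} (hX : Pk X f B) (hY : Pk Y g C) :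
    Pk (Nat.add X Y) (fun l => f l + g l) (B + C) := by
  refine ⟨?_, fun l hl => Nat.add_le_add (hX.2 l hl) (hY.2 l hl)⟩
  show X + Y = _
  rw [hX.1, hY.1, Pool.Agent.H92.Frog.K.ofL_add]

theorem pk_mul (a : ℕ) {X B : ℕ} {f : ℕ → ℕ} (hX : Pk X f B) :
    Pk (Nat.mul a X) (fun l => a * f l) (a * B) := by
  refine ⟨?_, fun l hl => Nat.mul_le_mul_left a (hX.2 l hl)⟩
  show a * X = _
  rw [hX.1, Pool.Agent.H92.Frog.K.mul_ofL]

theorem pk_one : Pk (Nat.pow 2 62) (fun l => if l = 0 then 2 ^ 62 else 0) (2 ^ 62) := by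
  refine ⟨?_, fun l _ => ?_⟩
  · show 2 ^ 62 = _
    unfold ofL
    rw [sum_eq_single 0]
    · simp
    · intro b _ hb
      simp [hb]
    · intro hb
      exact absurd (mem_range.mpr (by norm_num)) hb
  · show (if l = 0 then 2 ^ 62 else 0) ≤ 2 ^ 62
    split_ifs
    · exact le_refl _
    · exact Nat.zero_le _

theorem pk_law {E : ℕ} (h : GoodE E) : Pk E (dg E) (2 ^ 28) := by
  refine ⟨Pool.Agent.H92.Frog.K.eq_ofL h.1, fun l hl => ?_⟩
  exact (single_le_sum (f := fun l => dg E l) (fun i _ => Nat.zero_le _)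
    (mem_range.mpr hl)).trans h.2

theorem d4_key (x y z : St) :
    Nat.add (w (code x)) (Nat.add (w (code y)) (w (code z))) = keyS ![x, y, z] := by
  show w (code x) + (w (code y) + w (code z)) = _
  unfold keyS
  rw [Fin.sum_univ_three, add_assoc]
  rfl

theorem pk_ent (h : KLaw) {T : Tr} (hT : ∀ s : Fin 3 → St, Good (look T (keyS s)))
    (x y z : St) {a b c : ℕ} (ha : code x = a) (hb : code y = b) (hc : code z = c)
    {N : ℕ} (hN : N < 16) :
    Pk (ent T a b c N) (dg (ent T a b c N)) (2 ^ 28) ∧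
      ∀ l < 64, dg (ent T a b c N) l = en T a b c N l := by
  subst ha hb hc
  have h1 : ∀ l < 64, dg (ent T (code x) (code y) (code z) N) l =
      en T (code x) (code y) (code z) N l := fun l hl => h.2.2.1 _ N l hl
  refine ⟨⟨Pool.Agent.H92.Frog.K.eq_ofL (h.2.2.2 _ N), fun l hl => ?_⟩, h1⟩
  rw [h1 l hl]
  have h2 := hT ![x, y, z]
  rw [← d4_key] at h2
  exact (single_le_sum (f := fun l => dg (look T (Nat.add (w (code x))
    (Nat.add (w (code y)) (w (code z))))) (64 * N + l)) (fun i _ => Nat.zero_le _)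
    (mem_range.mpr hl)).trans (h2.2 N hN)

theorem pk_gek {X Y B C : ℕ} {f g : ℕ → ℕ} (hX : Pk X f B) (hY : Pk Y g C)
    (hB : B < 2 ^ 63) (hC : C < 2 ^ 63) (h : gek B64 X Y = true) : ∀ l < 64, g l ≤ f l := by
  have h1 : Nat.land (Nat.sub (Nat.add X B64) Y) B64 = B64 := Nat.eq_of_beq_eq_true h
  rw [d4_B64] at h1
  exact Pool.Agent.H92.Frog.K.cmp hX.1 hY.1 (fun l hl => (hX.2 l hl).trans_lt hB)
    (fun l hl => (hY.2 l hl).trans_lt hC) h1

theorem knx (h : KLaw) : KNx := by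
  intro T Q hT hc
  unfold chkN at hc
  obtain ⟨h1, hc⟩ := d4_band hc
  obtain ⟨g1, h1⟩ := d4_band h1
  obtain ⟨g2, h1⟩ := d4_band h1
  obtain ⟨g3, h1⟩ := d4_band h1
  obtain ⟨g4, g5⟩ := d4_band h1
  obtain ⟨c1, hc⟩ := d4_band hc
  obtain ⟨c2, hc⟩ := d4_band hc
  obtain ⟨c3, hc⟩ := d4_band hc
  obtain ⟨c4, c5⟩ := d4_band hc
  have k1 := h.1 _ g1
  have k2 := h.1 _ g2
  have k3 := h.1 _ g3
  have k4 := h.1 _ g4
  have k5 := h.1 _ g5
  refine ⟨⟨k1, k2, k3, k4, k5⟩, fun l hl h0 => ?_⟩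
  refine ⟨?_, ?_, ?_, ?_, ?_⟩
  · obtain ⟨a1, e1⟩ := pk_ent h hT St.F St.F St.FA (a := 7) (b := 7) (c := 9) rfl rfl rfl
      (N := 1) (by norm_num)
    obtain ⟨a2, e2⟩ := pk_ent h hT St.F St.FL St.FA (a := 7) (b := 8) (c := 9) rfl rfl rfl
      (N := 1) (by norm_num)
    obtain ⟨a3, e3⟩ := pk_ent h hT St.FL St.FL St.FA (a := 8) (b := 8) (c := 9) rfl rfl rfl
      (N := 1) (by norm_num)
    have hh := pk_gek (pk_add pk_one (pk_add (pk_mul 540 a1) (pk_add (pk_mul 108 a2)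
      (pk_mul 12 a3)))) (pk_mul 660 (pk_law k1)) (by norm_num) (by norm_num) c1 l hl
    rw [e1 l hl, e2 l hl, e3 l hl, if_neg h0] at hh
    omega
  · obtain ⟨a1, e1⟩ := pk_ent h hT St.F St.F St.FAA (a := 7) (b := 7) (c := 10) rfl rfl rfl
      (N := 1) (by norm_num)
    obtain ⟨a2, e2⟩ := pk_ent h hT St.F St.FL St.FAA (a := 7) (b := 8) (c := 10) rfl rfl rfl
      (N := 1) (by norm_num)
    obtain ⟨a3, e3⟩ := pk_ent h hT St.F St.FA St.FA (a := 7) (b := 9) (c := 9) rfl rfl rfl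
      (N := 1) (by norm_num)
    obtain ⟨a4, e4⟩ := pk_ent h hT St.FL St.FL St.FAA (a := 8) (b := 8) (c := 10) rfl rfl rfl
      (N := 1) (by norm_num)
    obtain ⟨a5, e5⟩ := pk_ent h hT St.FL St.FA St.FA (a := 8) (b := 9) (c := 9) rfl rfl rfl
      (N := 1) (by norm_num)
    have hh := pk_gek (pk_add pk_one (pk_add (pk_mul 97200 a1) (pk_add (pk_mul 40824 a2)
      (pk_add (pk_mul 235224 a3) (pk_add (pk_mul 7176 a4) (pk_mul 55176 a5))))))
      (pk_mul 435600 (pk_law k2)) (by norm_num) (by norm_num) c2 l hl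
    rw [e1 l hl, e2 l hl, e3 l hl, e4 l hl, e5 l hl, if_neg h0] at hh
    omega
  · obtain ⟨a1, e1⟩ := pk_ent h hT St.D St.D St.F (a := 0) (b := 0) (c := 7) rfl rfl rfl
      (N := 0) (by norm_num)
    obtain ⟨a2, e2⟩ := pk_ent h hT St.D St.D St.FL (a := 0) (b := 0) (c := 8) rfl rfl rfl
      (N := 0) (by norm_num)
    obtain ⟨a3, e3⟩ := pk_ent h hT St.D St.D St.FA (a := 0) (b := 0) (c := 9) rfl rfl rfl
      (N := 0) (by norm_num)
    have hh := pk_gek (pk_add pk_one (pk_add (pk_mul 396 a1) (pk_add (pk_mul 44 a2)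
      (pk_mul 220 a3)))) (pk_mul 660 (pk_law k3)) (by norm_num) (by norm_num) c3 l hl
    rw [e1 l hl, e2 l hl, e3 l hl, if_neg h0] at hh
    omega
  · obtain ⟨a1, e1⟩ := pk_ent h hT St.D St.F St.F (a := 0) (b := 7) (c := 7) rfl rfl rfl
      (N := 0) (by norm_num)
    obtain ⟨a2, e2⟩ := pk_ent h hT St.D St.F St.FL (a := 0) (b := 7) (c := 8) rfl rfl rfl
      (N := 0) (by norm_num)
    obtain ⟨a3, e3⟩ := pk_ent h hT St.D St.F St.FA (a := 0) (b := 7) (c := 9) rfl rfl rfl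
      (N := 0) (by norm_num)
    obtain ⟨a4, e4⟩ := pk_ent h hT St.D St.FL St.FL (a := 0) (b := 8) (c := 8) rfl rfl rfl
      (N := 0) (by norm_num)
    obtain ⟨a5, e5⟩ := pk_ent h hT St.D St.FL St.FA (a := 0) (b := 8) (c := 9) rfl rfl rfl
      (N := 0) (by norm_num)
    have hh := pk_gek (pk_add pk_one (pk_add (pk_mul 180 a1) (pk_add (pk_mul 36 a2)
      (pk_add (pk_mul 396 a3) (pk_add (pk_mul 4 a4) (pk_mul 44 a5))))))
      (pk_mul 660 (pk_law k4)) (by norm_num) (by norm_num) c4 l hl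
    rw [e1 l hl, e2 l hl, e3 l hl, e4 l hl, e5 l hl, if_neg h0] at hh
    omega
  · obtain ⟨a1, e1⟩ := pk_ent h hT St.F St.F St.FA (a := 7) (b := 7) (c := 9) rfl rfl rfl
      (N := 0) (by norm_num)
    obtain ⟨a2, e2⟩ := pk_ent h hT St.F St.FL St.FA (a := 7) (b := 8) (c := 9) rfl rfl rfl
      (N := 0) (by norm_num)
    obtain ⟨a3, e3⟩ := pk_ent h hT St.FL St.FL St.FA (a := 8) (b := 8) (c := 9) rfl rfl rfl
      (N := 0) (by norm_num)
    have hh := pk_gek (pk_add pk_one (pk_add (pk_mul 540 a1) (pk_add (pk_mul 108 a2)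
      (pk_mul 12 a3)))) (pk_mul 660 (pk_law k5)) (by norm_num) (by norm_num) c5 l hl
    rw [e1 l hl, e2 l hl, e3 l hl, if_neg h0] at hh
    omega

end Pool.Agent.H80.T3.K
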