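import Pool.Agent.H80.T3.K.D1
import Pool.Agent.H80.T3.K.D4

/-!
# MP_2b43a6_pr, project T3: row D3, pending runs, lanes
-/

set_option autoImplicit false

namespace Pool.Agent.H80.T3.K

open Finset
open Pool.Agent.H92.Frog.K (dg ofL BIf)

theorem d3_coef (C k : ℕ) :
    Nat.land (Nat.shiftRight C (Nat.mul 256 k)) M64 = dg C (4 * k) := by
  have h : Nat.land (Nat.shiftRight C (Nat.mul 256 k)) M64 =
    (C >>> (256 * k)) &&& (2 ^ 64 - 1) := rfl
  rw [h, Nat.and_two_pow_sub_one_eq_mod, Nat.shiftRight_eq_div_pow]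
  unfold dg
  rw [show 64 * (4 * k) = 256 * k by ring]

theorem d3_coef1 (C k : ℕ) :
    Nat.land (Nat.shiftRight C (Nat.mul 64 k)) M64 = dg C k := by
  have h : Nat.land (Nat.shiftRight C (Nat.mul 64 k)) M64 =
    (C >>> (64 * k)) &&& (2 ^ 64 - 1) := rfl
  rw [h, Nat.and_two_pow_sub_one_eq_mod, Nat.shiftRight_eq_div_pow]
  rfl

theorem d3_sh (C t l : ℕ) : dg (Nat.shiftRight C (Nat.mul 64 t)) l = dg C (l + t) := by
  have h : Nat.shiftRight C (Nat.mul 64 t) = C >>> (64 * t) := rfl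
  rw [h, Nat.shiftRight_eq_div_pow, Pool.Agent.H92.Frog.K.dg_div]

theorem d3_lane {R : ℕ} (h : Good R) {N l : ℕ} (hN : N < 16) (hl : l < 64) :
    dg R (64 * N + l) ≤ 2 ^ 28 :=
  (single_le_sum (f := fun l => dg R (64 * N + l)) (fun _ _ => Nat.zero_le _)
    (mem_range.mpr hl)).trans (h.2 N hN)

theorem d3_laneE {E : ℕ} (h : GoodE E) {l : ℕ} (hl : l < 64) : dg E l ≤ 2 ^ 28 :=
  (single_le_sum (f := fun l => dg E l) (fun _ _ => Nat.zero_le _)
    (mem_range.mpr hl)).trans h.2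

theorem pk_blk {R : ℕ} (h : Good R) {N : ℕ} (hN : N < 16) :
    Pk (blk R N) (fun l => dg R (64 * N + l)) (2 ^ 28) :=
  ⟨blk_eq R N, fun _ hl => d3_lane h hN hl⟩

theorem pk_le {X B C : ℕ} {f : ℕ → ℕ} (h : Pk X f B) (hB : B ≤ C) : Pk X f C :=
  ⟨h.1, fun l hl => (h.2 l hl).trans hB⟩

theorem pk_zero : Pk 0 (fun _ => 0) 0 := by
  refine ⟨?_, fun _ _ => le_refl _⟩
  unfold ofL
  simp

/-- the dot product with `n` blocks -/
theorem d3_dotn {C R : ℕ} (hR : Good R) (hC : ∀ k < 16, dg C (4 * k) ≤ 2 ^ 28) (n : ℕ)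
    (hn : n ≤ 16) :
    Pk (Nat.rec (motive := fun _ => Nat) 0
      (fun k ih => Nat.add ih (Nat.mul (Nat.land (Nat.shiftRight C (Nat.mul 256 k)) M64)
        (blk R k))) n) (fun l => ∑ k ∈ range n, dg C (4 * k) * dg R (64 * k + l))
      (n * 2 ^ 56) := by
  induction n with
  | zero => simpa using pk_zero
  | succ n ih =>
    have h1 := pk_mul (dg C (4 * n)) (pk_blk hR (N := n) (by omega))
    have h2 : Pk (Nat.mul (Nat.land (Nat.shiftRight C (Nat.mul 256 n)) M64) (blk R n))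
        (fun l => dg C (4 * n) * dg R (64 * n + l)) (2 ^ 56) := by
      rw [d3_coef]
      refine pk_le h1 ?_
      calc dg C (4 * n) * 2 ^ 28 ≤ 2 ^ 28 * 2 ^ 28 := Nat.mul_le_mul_right _ (hC n (by omega))
        _ = 2 ^ 56 := by norm_num
    have h3 := pk_add (ih (by omega)) h2
    refine ⟨?_, ?_⟩
    · have := h3.1
      simp only [sum_range_succ]
      exact this
    · intro l hl
      have := h3.2 l hl
      simp only [sum_range_succ]
      rw [add_mul, one_mul]
      exact this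

theorem d3_dot {C R : ℕ} (hR : Good R) (hC : ∀ k < 16, dg C (4 * k) ≤ 2 ^ 28) :
    Pk (dot C R) (fun l => ∑ k ∈ range 16, dg C (4 * k) * dg R (64 * k + l)) (2 ^ 60) :=
  pk_le (d3_dotn hR hC 16 le_rfl) (by norm_num)

/-- the sum over the types -/
theorem d3_dots {T : Tr} {C K' : ℕ} (hC : GoodE C) (k : ℕ) (hk : k ≤ 4)
    (hT : ∀ t < k, Good (look T (K' + wT t))) :
    Pk (dots T C K' k) (fun l => ∑ t ∈ range k, ∑ r ∈ range 16,
      dg C (4 * r + t) * dg (look T (K' + wT t)) (64 * r + l)) (k * 2 ^ 60) := by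
  unfold dots
  induction k with
  | zero => simpa using pk_zero
  | succ n ih =>
    have h1 : Pk (dot (Nat.shiftRight C (Nat.mul 64 n)) (look T (Nat.add K' (wT n))))
        (fun l => ∑ r ∈ range 16, dg C (4 * r + n) *
          dg (look T (K' + wT n)) (64 * r + l)) (2 ^ 60) := by
      have h2 := d3_dot (C := Nat.shiftRight C (Nat.mul 64 n)) (hT n (by omega)) (fun k hk' => by
        rw [d3_sh]
        exact d3_laneE hC (by omega))
      simp only [d3_sh] at h2
      exact h2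
    have h3 := pk_add (ih (by omega) (fun t ht => hT t (by omega))) h1
    refine ⟨?_, ?_⟩
    · have := h3.1
      simp only [sum_range_succ _ n]
      exact this
    · intro l hl
      have := h3.2 l hl
      simp only [sum_range_succ _ n]
      rw [add_mul, one_mul]
      exact this

theorem d3_gek {X Y B C : ℕ} {f g : ℕ → ℕ} (hX : Pk X f B) (hY : Pk Y g C)
    (hB : B < 2 ^ 63) (hC : C < 2 ^ 63) (h : gek B64 X Y = true) : ∀ l < 64, g l ≤ f l :=
  gek_sound64 hX.1 hY.1 (fun l hl => (hX.2 l hl).trans_lt hB)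
    (fun l hl => (hY.2 l hl).trans_lt hC) h

theorem kproc_b (_h : KLaw) : KProc := by
  refine ⟨?_, ?_, ?_⟩
  · intro T C K' R hC hR hT h l hl
    have h1 := d3_dots hC 4 le_rfl hT
    have h2 := pk_mul (Nat.pow 2 28) (pk_blk hR (N := 0) (by norm_num))
    have h3 := d3_gek h1 h2 (by norm_num) (by norm_num) h l hl
    rw [sum_comm]
    simpa using h3
  · intro T C k K' R hk1 hk3 hC hR hT h l hl
    have h1 := d3_dots (T := T) (K' := K') hC k (by omega) (fun t ht => hT t ht.le)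
    have h4 := pk_mul (dg C k) (pk_blk (hT k le_rfl) (N := 0) (by norm_num))
    have h5 : Pk (Nat.mul (Nat.land (Nat.shiftRight C (Nat.mul 64 k)) M64)
        (blk (look T (Nat.add K' (wT k))) 0))
        (fun l => dg C k * dg (look T (K' + wT k)) (64 * 0 + l)) (2 ^ 56) := by
      rw [d3_coef1]
      refine pk_le h4 ?_
      calc dg C k * 2 ^ 28 ≤ 2 ^ 28 * 2 ^ 28 :=
            Nat.mul_le_mul_right _ (d3_laneE hC (by omega))
        _ = 2 ^ 56 := by norm_num
    have h2 := pk_mul (Nat.pow 2 28) (pk_blk hR (N := 0) (by norm_num))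
    have hk : 2 ^ 56 + k * 2 ^ 60 < 2 ^ 63 := by
      have : k * 2 ^ 60 ≤ 3 * 2 ^ 60 := Nat.mul_le_mul_right _ hk3
      omega
    have h3 := d3_gek (pk_add h5 h1) h2 hk (by norm_num) h l hl
    rw [sum_comm]
    simpa using h3
  · intro T K' R hR h6 h5 h l hl
    have h1 := pk_mul 2 (pk_blk h6 (N := 0) (by norm_num))
    have h2 := pk_blk h5 (N := 1) (by norm_num)
    have h4 := pk_mul 3 (pk_blk hR (N := 0) (by norm_num))
    have h3 := d3_gek (pk_add h1 h2) h4 (by norm_num) (by norm_num) h l hl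
    simpa using h3

end Pool.Agent.H80.T3.K
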