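import Pool.Agent.H80.T3.K.KStm

/-!
# MP_2b43a6_pr, project T3: row D5, the averages over the starts
-/

set_option autoImplicit false

namespace Pool.Agent.H80.T3.K

open Finset

/-- natural weights of the sets of loops -/
def d5pw (B : Finset (Fin 3)) : ℕ :=
  if B.card = 0 then 165 else if B.card = 1 then 15 else if B.card = 2 then 3 else 1

theorem d5_pB (B : Finset (Fin 3)) : pB B = (d5pw B : ℝ) / 220 := by
  unfold pB d5pw
  split_ifs <;> norm_num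

theorem d5_fib {ι : Type} [Fintype ι] (n : ℕ) (a κ : ι → ℕ) (K cnt : Fin n → ℕ)
    (h1 : ∀ i, (∑ j : Fin n, if κ i = K j then 1 else 0) = 1)
    (h2 : ∀ j, (∑ i, if κ i = K j then a i else 0) = cnt j) (g : ℕ → ℝ) :
    ∑ i, (a i : ℝ) * g (κ i) = ∑ j, (cnt j : ℝ) * g (K j) := by
  have e1 : ∀ i, (a i : ℝ) * g (κ i) = ∑ j : Fin n, if κ i = K j then (a i : ℝ) * g (K j) else 0 := by
    intro i
    have h := h1 i
    have e2 : ∀ j : Fin n, (if κ i = K j then (a i : ℝ) * g (K j) else 0) =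
        ((if κ i = K j then 1 else 0 : ℕ) : ℝ) * ((a i : ℝ) * g (κ i)) := by
      intro j
      by_cases hj : κ i = K j
      · simp [hj]
      · simp [hj]
    rw [sum_congr rfl fun j _ => e2 j, ← sum_mul, ← Nat.cast_sum, h]
    simp
  rw [sum_congr rfl fun i _ => e1 i, sum_comm]
  refine sum_congr rfl fun j _ => ?_
  rw [← h2 j, Nat.cast_sum, sum_mul]
  refine sum_congr rfl fun i _ => ?_
  by_cases hj : κ i = K j
  · simp [hj]
  · simp [hj]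

/-- the index type of one start -/
abbrev D5I : Type := Finset (Fin 3) × Fin 3

theorem d5_one (κ : D5I → ℕ) (g : ℕ → ℝ) :
    ∑ B : Finset (Fin 3), pB B * ((1 / 3) * ∑ i : Fin 3, g (κ (B, i))) =
      (∑ x : D5I, (d5pw x.1 : ℝ) * g (κ x)) / 660 := by
  rw [Fintype.sum_prod_type, sum_div]
  refine sum_congr rfl fun B _ => ?_
  have e : ∑ y : Fin 3, (d5pw (B, y).1 : ℝ) * g (κ (B, y)) =
      (d5pw B : ℝ) * ∑ i : Fin 3, g (κ (B, i)) := by rw [mul_sum]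
  rw [d5_pB, e]
  ring

theorem d5_two (κ : D5I × D5I → ℕ) (g : ℕ → ℝ) :
    ∑ B : Finset (Fin 3), pB B * ((1 / 3) * ∑ i : Fin 3, ∑ B' : Finset (Fin 3), pB B' *
      ((1 / 3) * ∑ i' : Fin 3, g (κ ((B, i), (B', i'))))) =
      (∑ x : D5I × D5I, ((d5pw x.1.1 * d5pw x.2.1 : ℕ) : ℝ) * g (κ x)) / 435600 := by
  have e : ∀ (B : Finset (Fin 3)) (i : Fin 3), ∑ B' : Finset (Fin 3), pB B' *
      ((1 / 3) * ∑ i' : Fin 3, g (κ ((B, i), (B', i')))) =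
      (∑ x : D5I, (d5pw x.1 : ℝ) * g (κ ((B, i), x))) / 660 := fun B i =>
    d5_one (fun x => κ ((B, i), x)) g
  simp_rw [e]
  rw [Fintype.sum_prod_type, Fintype.sum_prod_type, sum_div]
  refine sum_congr rfl fun B _ => ?_
  have e2 : ∑ y : Fin 3, ∑ z : D5I, ((d5pw ((B, y), z).1.1 * d5pw ((B, y), z).2.1 : ℕ) : ℝ) *
      g (κ ((B, y), z)) = (d5pw B : ℝ) * ∑ y : Fin 3, ∑ z : D5I, (d5pw z.1 : ℝ) *
      g (κ ((B, y), z)) := by
    rw [mul_sum]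
    refine sum_congr rfl fun y _ => ?_
    rw [mul_sum]
    refine sum_congr rfl fun z _ => ?_
    push_cast
    ring
  rw [d5_pB, ← sum_div, e2]
  ring

theorem d5_a (k n : ℕ) (K cnt : Fin n → ℕ)
    (h1 : ∀ i : D5I, (∑ j : Fin n, if keyS (start k [i]) = K j then 1 else 0) = 1)
    (h2 : ∀ j, (∑ i : D5I, if keyS (start k [i]) = K j then d5pw i.1 else 0) = cnt j)
    (g : ℕ → ℝ) :
    ∑ B : Finset (Fin 3), pB B * ((1 / 3) * ∑ i : Fin 3, g (keyS (start k [(B, i)]))) =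
      (∑ j, (cnt j : ℝ) * g (K j)) / 660 := by
  rw [d5_one (fun x => keyS (start k [x])) g,
    d5_fib n (fun x : D5I => d5pw x.1) (fun x => keyS (start k [x])) K cnt h1 h2 g]

theorem d5_b (n : ℕ) (K cnt : Fin n → ℕ)
    (h1 : ∀ i : D5I × D5I, (∑ j : Fin n, if keyS (start 3 [i.1, i.2]) = K j then 1 else 0) = 1)
    (h2 : ∀ j, (∑ i : D5I × D5I, if keyS (start 3 [i.1, i.2]) = K j then
      d5pw i.1.1 * d5pw i.2.1 else 0) = cnt j) (g : ℕ → ℝ) :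
    ∑ B : Finset (Fin 3), pB B * ((1 / 3) * ∑ i : Fin 3, ∑ B' : Finset (Fin 3), pB B' *
      ((1 / 3) * ∑ i' : Fin 3, g (keyS (start 3 [(B, i), (B', i')])))) =
      (∑ j, (cnt j : ℝ) * g (K j)) / 435600 := by
  rw [d5_two (fun x => keyS (start 3 [x.1, x.2])) g,
    d5_fib n (fun x : D5I × D5I => d5pw x.1.1 * d5pw x.2.1)
      (fun x => keyS (start 3 [x.1, x.2])) K cnt h1 h2 g]

theorem d5_k3 : (∀ i : D5I, (∑ j : Fin 3, if keyS (start 3 [i]) =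
    (![w 7 + (w 7 + w 9), w 7 + (w 8 + w 9), w 8 + (w 8 + w 9)] : Fin 3 → ℕ) j
      then 1 else 0) = 1) ∧
    ∀ j : Fin 3, (∑ i : D5I, if keyS (start 3 [i]) =
    (![w 7 + (w 7 + w 9), w 7 + (w 8 + w 9), w 8 + (w 8 + w 9)] : Fin 3 → ℕ) j
      then d5pw i.1 else 0) = (![540, 108, 12] : Fin 3 → ℕ) j := by
  decide +kernel

theorem d5_k1 : (∀ i : D5I, (∑ j : Fin 3, if keyS (start 1 [i]) =
    (![w 0 + (w 0 + w 7), w 0 + (w 0 + w 8), w 0 + (w 0 + w 9)] : Fin 3 → ℕ) j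
      then 1 else 0) = 1) ∧
    ∀ j : Fin 3, (∑ i : D5I, if keyS (start 1 [i]) =
    (![w 0 + (w 0 + w 7), w 0 + (w 0 + w 8), w 0 + (w 0 + w 9)] : Fin 3 → ℕ) j
      then d5pw i.1 else 0) = (![396, 44, 220] : Fin 3 → ℕ) j := by
  decide +kernel

theorem d5_k2 : (∀ i : D5I, (∑ j : Fin 5, if keyS (start 2 [i]) =
    (![w 0 + (w 7 + w 7), w 0 + (w 7 + w 8), w 0 + (w 7 + w 9), w 0 + (w 8 + w 8),
      w 0 + (w 8 + w 9)] : Fin 5 → ℕ) j then 1 else 0) = 1) ∧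
    ∀ j : Fin 5, (∑ i : D5I, if keyS (start 2 [i]) =
    (![w 0 + (w 7 + w 7), w 0 + (w 7 + w 8), w 0 + (w 7 + w 9), w 0 + (w 8 + w 8),
      w 0 + (w 8 + w 9)] : Fin 5 → ℕ) j then d5pw i.1 else 0) =
      (![180, 36, 396, 4, 44] : Fin 5 → ℕ) j := by
  decide +kernel

theorem d5_k4 : (∀ i : D5I × D5I, (∑ j : Fin 5, if keyS (start 3 [i.1, i.2]) =
    (![w 7 + (w 7 + w 10), w 7 + (w 8 + w 10), w 7 + (w 9 + w 9), w 8 + (w 8 + w 10),
      w 8 + (w 9 + w 9)] : Fin 5 → ℕ) j then 1 else 0) = 1) ∧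
    ∀ j : Fin 5, (∑ i : D5I × D5I, if keyS (start 3 [i.1, i.2]) =
    (![w 7 + (w 7 + w 10), w 7 + (w 8 + w 10), w 7 + (w 9 + w 9), w 8 + (w 8 + w 10),
      w 8 + (w 9 + w 9)] : Fin 5 → ℕ) j then d5pw i.1.1 * d5pw i.2.1 else 0) =
      (![97200, 40824, 235224, 7176, 55176] : Fin 5 → ℕ) j := by
  decide +kernel

theorem kst : KSt := by
  intro g
  refine ⟨?_, ?_, ?_, ?_⟩
  · rw [d5_a 3 3 _ _ d5_k3.1 d5_k3.2 g]
    simp [Fin.sum_univ_succ]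
    ring
  · rw [d5_b 5 _ _ d5_k4.1 d5_k4.2 g]
    simp [Fin.sum_univ_succ]
    ring
  · rw [d5_a 1 3 _ _ d5_k1.1 d5_k1.2 g]
    simp [Fin.sum_univ_succ]
    ring
  · rw [d5_a 2 5 _ _ d5_k2.1 d5_k2.2 g]
    simp [Fin.sum_univ_succ]
    ring

end Pool.Agent.H80.T3.K
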