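import Pool.Agent.H80.T3.K.FinK

/-!
# MP_2b43a6_pr, project T3: start of the second phase from the laws of height 60
-/

set_option autoImplicit false

namespace Pool.Agent.H80.T3.K

open Pool.Agent.H92.Frog.K (dg)

/-- mass of `m` exits (scale `2 ^ 28`) -/
def fsQ (m : ℕ) : ℕ := if m < 16 then ∑ t ∈ Finset.range 4, dg lw60.F1 (4 * m + t) else 0

/-- mass of `m` exits with the missing mass at zero -/
def fsZ : ℕ → ℤ
  | 0 => 2 ^ 28 - ∑ m ∈ Finset.range 15, (fsQ (m + 1) : ℤ)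
  | m + 1 => fsQ (m + 1)

/-- the coefficients of the differential inequality -/
def fsC : ℕ → ℤ
  | 0 => fsZ 1 - 3 * fsZ 0
  | m + 1 => (m + 2) * fsZ (m + 2) - 3 * fsZ (m + 1) - 6 * fsZ m

theorem fs_zero : 0 ≤ fsZ 0 := by decide +kernel

theorem fs_pre : ∀ k < 18, 0 ≤ ∑ m ∈ Finset.range k, fsC m := by decide +kernel

/-- the law of the number of exits -/
noncomputable def fsP (m : ℕ) : ℝ := (fsZ m : ℝ) / 2 ^ 28

theorem fs_nonneg (m : ℕ) : 0 ≤ fsP m := by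
  unfold fsP
  apply div_nonneg _ (by positivity)
  have : 0 ≤ fsZ m := by
    cases m with
    | zero => exact fs_zero
    | succ m => exact Int.natCast_nonneg _
  exact_mod_cast this

theorem fs_tail (m : ℕ) (hm : 15 < m) : fsP m = 0 := by
  unfold fsP
  obtain ⟨n, rfl⟩ : ∃ n, m = n + 1 := ⟨m - 1, by omega⟩
  have : fsZ (n + 1) = 0 := by
    show (fsQ (n + 1) : ℤ) = 0
    unfold fsQ
    rw [if_neg (by omega)]
    rfl
  rw [this]
  simp

theorem fs_sum : ∑ m ∈ Finset.range (15 + 1), fsP m = 1 := by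
  rw [Finset.sum_range_succ']
  unfold fsP
  rw [← Finset.sum_div, ← add_div, div_eq_one_iff_eq (by positivity)]
  show ∑ i ∈ Finset.range 15, (((fsQ (i + 1) : ℕ) : ℤ) : ℝ) +
    ((2 ^ 28 - ∑ m ∈ Finset.range 15, (fsQ (m + 1) : ℤ) : ℤ) : ℝ) = 2 ^ 28
  push_cast
  ring

theorem fs_cP0 (m : ℕ) : cP0 fsP m = (fsC m : ℝ) / 2 ^ 28 := by
  cases m with
  | zero =>
    show fsP 1 - 3 * fsP 0 = ((fsZ 1 - 3 * fsZ 0 : ℤ) : ℝ) / 2 ^ 28
    unfold fsP
    push_cast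
    ring
  | succ m =>
    show ((m : ℝ) + 2) * fsP (m + 2) - 3 * fsP (m + 1) - 6 * fsP m =
      (((m + 2) * fsZ (m + 2) - 3 * fsZ (m + 1) - 6 * fsZ m : ℤ) : ℝ) / 2 ^ 28
    unfold fsP
    push_cast
    ring

theorem fs_prefix (k : ℕ) (hk : k ≤ 15 + 2) : 0 ≤ ∑ m ∈ Finset.range k, cP0 fsP m := by
  have e : ∑ m ∈ Finset.range k, cP0 fsP m =
      ((∑ m ∈ Finset.range k, fsC m : ℤ) : ℝ) / 2 ^ 28 := by
    rw [Int.cast_sum, Finset.sum_div]
    exact Finset.sum_congr rfl fun m _ => fs_cP0 m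
  rw [e]
  apply div_nonneg _ (by positivity)
  exact_mod_cast fs_pre k (by omega)

theorem fs_row (m : ℕ) (hm : m < 16) :
    ∑ t ∈ Finset.range 4, toL lw60.F1 m t = (fsQ m : ℝ) / 2 ^ 28 := by
  unfold fsQ
  rw [if_pos hm, Nat.cast_sum, Finset.sum_div]
  refine Finset.sum_congr rfl fun t ht => ?_
  exact d6_toL _ _ _ (by omega) (Finset.mem_range.1 ht)

theorem fs_start (h1 : SP1) (hl : Lev 15 60 (lawsK lw60)) : SStart := by
  obtain ⟨L, hL, e⟩ := h1 15 60 _ hl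
  refine ⟨L, hL, fun x hx0 hx1 => ?_⟩
  rw [e x]
  have e1 : (1 - ∑ m ∈ Finset.range (15 + 1), ∑ t ∈ Finset.range 4, (lawsK lw60).F1 m t) +
      ∑ m ∈ Finset.range (15 + 1), ∑ t ∈ Finset.range 4, (lawsK lw60).F1 m t * x ^ m =
      ∑ m ∈ Finset.range (15 + 1), fsP m * x ^ m := by
    have e2 : ∀ m ∈ Finset.range (15 + 1), ∑ t ∈ Finset.range 4, (lawsK lw60).F1 m t =
        (fsQ m : ℝ) / 2 ^ 28 := fun m hm => fs_row m (Finset.mem_range.1 hm)
    have e3 : ∀ m ∈ Finset.range (15 + 1), ∑ t ∈ Finset.range 4,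
        (lawsK lw60).F1 m t * x ^ m = (fsQ m : ℝ) / 2 ^ 28 * x ^ m := fun m hm => by
      rw [← Finset.sum_mul, e2 m hm]
    rw [Finset.sum_congr rfl e2, Finset.sum_congr rfl e3,
      Finset.sum_range_succ' (fun m => (fsQ m : ℝ) / 2 ^ 28) 15,
      Finset.sum_range_succ' (fun m => (fsQ m : ℝ) / 2 ^ 28 * x ^ m) 15,
      Finset.sum_range_succ' (fun m => fsP m * x ^ m) 15]
    have e4 : ∀ m, fsP (m + 1) = (fsQ (m + 1) : ℝ) / 2 ^ 28 := fun m => by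
      unfold fsP
      show (((fsQ (m + 1) : ℕ) : ℤ) : ℝ) / 2 ^ 28 = _
      push_cast
      rfl
    have e5 : fsP 0 = 1 - ∑ m ∈ Finset.range 15, (fsQ (m + 1) : ℝ) / 2 ^ 28 := by
      unfold fsP
      show ((2 ^ 28 - ∑ m ∈ Finset.range 15, (fsQ (m + 1) : ℤ) : ℤ) : ℝ) / 2 ^ 28 = _
      rw [← Finset.sum_div]
      push_cast
      ring
    simp only [e4, e5, pow_zero, mul_one]
    ring
  rw [e1]
  exact sp0 15 fsP fs_nonneg fs_tail fs_sum fs_prefix x (by linarith) hx1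

end Pool.Agent.H80.T3.K
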