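import Pool.Agent.H80.T3.K.KStm

/-!
# MP_2b43a6_pr, project T3: packed laws and blocks (row D1)
-/

set_option autoImplicit false

open Finset

namespace Pool.Agent.H80.T3.K

open Pool.Agent.H92.Frog.K

/-- the geometric sum -/
theorem d1_geom (n : ℕ) : (2 ^ 64 - 1) * ofL (fun _ => 1) n = 2 ^ (64 * n) - 1 := by
  induction n with
  | zero => simp [ofL]
  | succ n ih =>
    rw [ofL_succ, mul_add, ih, show 64 * (n + 1) = 64 * n + 64 by ring, pow_add]
    have h1 : 1 ≤ 2 ^ (64 * n) := Nat.one_le_two_pow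
    generalize 2 ^ (64 * n) = y at h1 ⊢
    omega

/-- the constant `c` in `n` lanes -/
theorem rep_eq (n c : ℕ) : rep n c = ofL (fun _ => c) n := by
  have h0 : rep n c = c * ((2 ^ (64 * n) - 1) / (2 ^ 64 - 1)) := rfl
  rw [h0, ← d1_geom, Nat.mul_div_cancel_left _ (by norm_num), mul_ofL]
  simp

/-- change of the exponent -/
theorem d1_cast {E L k : ℕ} (hk : 64 * L = k) : E < 2 ^ k ↔ E < 2 ^ (64 * L) := by
  subst hk; exact Iff.rfl

theorem d1_land (R N k : ℕ) : Nat.land (Nat.shiftRight R (Nat.mul k N))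
    (Nat.sub (Nat.pow 2 k) 1) = R / 2 ^ (k * N) % 2 ^ k := by
  have h : Nat.land (Nat.shiftRight R (Nat.mul k N)) (Nat.sub (Nat.pow 2 k) 1) =
    (R >>> (k * N)) &&& (2 ^ k - 1) := rfl
  rw [h, Nat.and_two_pow_sub_one_eq_mod, Nat.shiftRight_eq_div_pow]

theorem d1_window (R N L k : ℕ) (hk : 64 * L = k) :
    R / 2 ^ (k * N) % 2 ^ k = ofL (fun l => dg R (L * N + l)) L := by
  subst hk
  rw [mul_assoc, window]
  exact ofL_congr fun l _ => by rw [add_comm]

/-- a block is a window of lanes -/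
theorem blk_eq (R N : ℕ) : blk R N = ofL (fun l => dg R (64 * N + l)) 64 := by
  unfold blk MW
  rw [d1_land]
  exact d1_window R N 64 4096 rfl

/-- a block has 64 lanes -/
theorem blk_lt (R N : ℕ) : blk R N < 2 ^ 4096 := by
  rw [blk_eq]
  exact (d1_cast (L := 64) rfl).2
    (ofL_lt (f := fun l => dg R (64 * N + l)) (L := 64) fun l _ => dg_lt _ _)

/-- the lanes of a block -/
theorem dg_blk (R N l : ℕ) (hl : l < 64) : dg (blk R N) l = dg R (64 * N + l) := by
  rw [blk_eq]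
  exact dg_ofL (f := fun l => dg R (64 * N + l)) (fun l _ => dg_lt _ _) l hl

/-- the sum of the lanes is the residue modulo `2 ^ 64 - 1` -/
theorem d1_modEq (f : ℕ → ℕ) (L : ℕ) : ofL f L ≡ ∑ l ∈ range L, f l [MOD M64] := by
  have hM : M64 = 2 ^ 64 - 1 := rfl
  have h1 : ∀ l : ℕ, 2 ^ (64 * l) ≡ 1 [MOD M64] := by
    intro l
    rw [pow_mul]
    have h2 : 2 ^ 64 ≡ 1 [MOD M64] := by rw [hM]; decide
    simpa using h2.pow l
  unfold ofL
  induction L with
  | zero => simp; rfl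
  | succ L ih =>
    rw [sum_range_succ, sum_range_succ]
    have h3 := (h1 L).mul_left (f L)
    rw [mul_one] at h3
    exact ih.add h3

/-- the sum of the lanes is the residue modulo `2 ^ 64 - 1` -/
theorem mod_M64 {E : ℕ} (hE : E < 2 ^ 4096) (hs : ∑ l ∈ range 64, dg E l < 2 ^ 64 - 1) :
    Nat.mod E M64 = ∑ l ∈ range 64, dg E l := by
  have h1 : E = ofL (dg E) 64 := eq_ofL ((d1_cast (L := 64) rfl).1 hE)
  have h2 := d1_modEq (dg E) 64
  rw [← h1] at h2
  have h4 : (∑ l ∈ range 64, dg E l) < M64 := hs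
  have h3 : E % M64 = (∑ l ∈ range 64, dg E l) % M64 := h2
  rw [Nat.mod_eq_of_lt h4] at h3
  exact h3

/-- the sum of the lanes if they are small -/
theorem mod_M64_of_le {E : ℕ} (hE : E < 2 ^ 4096) (hb : ∀ l < 64, dg E l ≤ 2 ^ 29 - 1) :
    Nat.mod E M64 = ∑ l ∈ range 64, dg E l := by
  refine mod_M64 hE ?_
  have h1 : ∑ l ∈ range 64, dg E l ≤ ∑ _l ∈ range 64, (2 ^ 29 - 1) :=
    sum_le_sum fun l hl => hb l (mem_range.1 hl)
  rw [sum_const, card_range, smul_eq_mul] at h1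
  refine lt_of_le_of_lt h1 (by norm_num)

theorem MKE_eq : MKE = ofL (fun _ => 2 ^ 29 - 1) 64 := rep_eq 64 (Nat.sub (Nat.pow 2 29) 1)

theorem MK_eq : MK = ofL (fun _ => 2 ^ 29 - 1) 1024 := rep_eq 1024 (Nat.sub (Nat.pow 2 29) 1)

theorem B64_eq : B64 = BIf 64 := rep_eq 64 (Nat.pow 2 63)

theorem B960_eq : B960 = BIf 960 := rep_eq 960 (Nat.pow 2 63)

/-- lanewise comparison, any number of lanes -/
theorem gek_sound {n BI X Y : ℕ} {f g : ℕ → ℕ} (hB : BI = BIf n) (hX : X = ofL f n)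
    (hY : Y = ofL g n) (hf : ∀ l < n, f l < 2 ^ 63) (hg : ∀ l < n, g l < 2 ^ 63)
    (h : gek BI X Y = true) : ∀ l < n, g l ≤ f l := by
  subst hB
  exact cmp hX hY hf hg (Nat.eq_of_beq_eq_true h)

/-- lanewise comparison, 64 lanes -/
theorem gek_sound64 {X Y : ℕ} {f g : ℕ → ℕ} (hX : X = ofL f 64) (hY : Y = ofL g 64)
    (hf : ∀ l < 64, f l < 2 ^ 63) (hg : ∀ l < 64, g l < 2 ^ 63)
    (h : gek B64 X Y = true) : ∀ l < 64, g l ≤ f l := gek_sound B64_eq hX hY hf hg h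

/-- lanewise comparison, 960 lanes -/
theorem gek_sound960 {X Y : ℕ} {f g : ℕ → ℕ} (hX : X = ofL f 960) (hY : Y = ofL g 960)
    (hf : ∀ l < 960, f l < 2 ^ 63) (hg : ∀ l < 960, g l < 2 ^ 63)
    (h : gek B960 X Y = true) : ∀ l < 960, g l ≤ f l := gek_sound B960_eq hX hY hf hg h

theorem band_iff (a b : Bool) : band a b = true ↔ a = true ∧ b = true := by
  cases a <;> simp [band]

theorem allN_sound {p : ℕ → Bool} {n : ℕ} (h : allN p n = true) : ∀ k < n, p k = true := by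
  induction n with
  | zero => intro k hk; omega
  | succ n ih =>
    have h1 : band (p n) (allN p n) = true := h
    obtain ⟨h2, h3⟩ := (band_iff _ _).1 h1
    intro k hk
    rcases Nat.lt_succ_iff_lt_or_eq.1 hk with h4 | h4
    · exact ih h3 k h4
    · rw [h4]; exact h2

theorem isLaw_sound {E : ℕ} (h : isLaw E = true) : GoodE E := by
  unfold isLaw at h
  obtain ⟨h1, h2⟩ := (band_iff _ _).1 h
  have h1' : E &&& MKE = E := Nat.eq_of_beq_eq_true h1
  obtain ⟨h3, h4⟩ := mask_lt MKE_eq (fun _ _ => by norm_num) h1'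
  replace h3 : E < 2 ^ 4096 := (d1_cast (L := 64) rfl).2 h3
  have h5 : Nat.mod E M64 ≤ 2 ^ 28 := Nat.le_of_ble_eq_true h2
  rw [mod_M64_of_le h3 h4] at h5
  exact ⟨h3, h5⟩

theorem lawRow_sound {R : ℕ} (h : lawRow R = true) : Good R := by
  unfold lawRow at h
  obtain ⟨h1, h2⟩ := (band_iff _ _).1 h
  have h1' : R &&& MK = R := Nat.eq_of_beq_eq_true h1
  obtain ⟨h3, h4⟩ := mask_lt MK_eq (fun _ _ => by norm_num) h1'
  replace h3 : R < 2 ^ 65536 := (d1_cast (L := 1024) rfl).2 h3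
  refine ⟨h3, fun N hN => ?_⟩
  have h5 : Nat.mod (blk R N) M64 ≤ 2 ^ 28 := Nat.le_of_ble_eq_true (allN_sound h2 N hN)
  have h6 : ∀ l < 64, dg (blk R N) l ≤ 2 ^ 29 - 1 := by
    intro l hl
    rw [dg_blk R N l hl]
    exact h4 _ (by omega)
  rw [mod_M64_of_le (blk_lt R N) h6] at h5
  refine le_trans (le_of_eq ?_) h5
  exact sum_congr rfl fun l hl => (dg_blk R N l (mem_range.1 hl)).symm

/-- D1: laws and blocks -/
theorem klaw : KLaw :=
  ⟨fun _ h => isLaw_sound h, fun _ h => lawRow_sound h, dg_blk, blk_lt⟩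

end Pool.Agent.H80.T3.K
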