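import Pool.Agent.H80.T3.K.KStm

/-!
# MP_2b43a6_pr, project T3, row D2: the rule for frogs, lanes
-/

set_option autoImplicit false

namespace Pool.Agent.H80.T3.K

open Pool.Agent.H92.Frog.K (dg ofL ofL_succ eq_ofL ofL_lt dg_ofL dg_land dg_div dg_mod ofL_add
  mul_ofL ofL_congr BIf cmp dg_lt)

/-- constants in all lanes -/
theorem d2_rep (n c : ℕ) : rep n c = ofL (fun _ => c) n := by
  have h1 : ofL (fun _ => c) n = c * ∑ l ∈ Finset.range n, (2 ^ 64) ^ l := by
    unfold ofL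
    rw [Finset.mul_sum]
    refine Finset.sum_congr rfl fun l _ => ?_
    rw [← pow_mul]
  rw [h1, Nat.geomSum_eq (by norm_num), ← pow_mul]
  rfl

theorem d2_B960 : B960 = BIf 960 := by
  unfold B960 BIf
  rw [d2_rep]
  exact ofL_congr fun l _ => rfl

theorem d2_land (X n : ℕ) : Nat.land X (Nat.sub (Nat.pow 2 n) 1) = X % 2 ^ n :=
  Nat.and_two_pow_sub_one_eq_mod X n

theorem d2_land_MR (X : ℕ) : Nat.land X MR = X % 2 ^ (64 * 960) := by
  unfold MR
  rw [d2_land, show (64 * 960 : ℕ) = 61440 from by norm_num]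

theorem d2_TOP : ∀ l < 1024, dg TOP l = if 60 ≤ l % 64 then 2 ^ 64 - 1 else 0 := by
  decide +kernel

theorem d2_exp {R : ℕ} (h : R < 2 ^ 65536) {L : ℕ} (hL : 1024 ≤ L) : R < 2 ^ (64 * L) :=
  lt_of_lt_of_le h (Nat.pow_le_pow_right (by norm_num) (by omega))

/-- lanes beyond the end -/
theorem d2_dg_zero {X l : ℕ} (h : X < 2 ^ (64 * l)) : dg X l = 0 := by
  unfold dg
  rw [Nat.div_eq_of_lt h, Nat.zero_mod]

/-- lanes of a good row -/
theorem d2_good {R : ℕ} (h : Good R) (l : ℕ) : dg R l ≤ 2 ^ 28 := by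
  by_cases hl : l < 1024
  · have h1 := h.2 (l / 64) (by omega)
    have h2 : dg R (64 * (l / 64) + l % 64) ≤ ∑ i ∈ Finset.range 64, dg R (64 * (l / 64) + i) :=
      Finset.single_le_sum (f := fun i => dg R (64 * (l / 64) + i)) (fun _ _ => Nat.zero_le _)
        (Finset.mem_range.mpr (Nat.mod_lt _ (by norm_num)))
    rw [Nat.div_add_mod] at h2
    exact le_trans h2 h1
  · rw [d2_dg_zero (d2_exp h.1 (by omega))]
    exact Nat.zero_le _

/-- subtraction without borrow -/
theorem d2_ofL_sub (f g : ℕ → ℕ) (L : ℕ) (h : ∀ l, g l ≤ f l) :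
    ofL f L - ofL g L = ofL (fun l => f l - g l) L := by
  have h1 : ofL f L = ofL g L + ofL (fun l => f l - g l) L := by
    rw [ofL_add]
    refine ofL_congr fun l _ => ?_
    have := h l
    omega
  rw [h1, Nat.add_sub_cancel_left]

/-- shift by four lanes -/
theorem d2_shift (g : ℕ → ℕ) (L : ℕ) :
    ofL g L * 2 ^ 256 = ofL (fun l => if l < 4 then 0 else g (l - 4)) (L + 4) := by
  induction L with
  | zero =>
    simp [ofL, Finset.sum_range_succ]
  | succ L ih =>
    have key : g L * 2 ^ (64 * L) * 2 ^ 256 =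
        (if L + 4 < 4 then 0 else g (L + 4 - 4)) * 2 ^ (64 * (L + 4)) := by
      rw [if_neg (by omega), show L + 4 - 4 = L by omega, mul_assoc, ← pow_add,
        show 64 * L + 256 = 64 * (L + 4) by ring]
    rw [ofL_succ, add_mul, ih, key, show L + 1 + 4 = (L + 4) + 1 by ring,
      ofL_succ (fun l => if l < 4 then 0 else g (l - 4)) (L + 4)]

/-- the lanes kept at the top of each block -/
def d2h (R l : ℕ) : ℕ := dg R l &&& dg TOP l

theorem d2h_le (R l : ℕ) : d2h R l ≤ dg R l := Nat.and_le_left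

theorem d2h_eq (R l : ℕ) (hl : l < 1024) : d2h R l = if 60 ≤ l % 64 then dg R l else 0 := by
  unfold d2h
  rw [d2_TOP l hl]
  split_ifs
  · rw [Nat.and_two_pow_sub_one_eq_mod]
    exact Nat.mod_eq_of_lt (dg_lt _ _)
  · exact Nat.and_zero _

/-- the lanes of the shifted row -/
def d2s (R l : ℕ) : ℕ := (if l < 4 then 0 else dg R (l - 4) - d2h R (l - 4)) + d2h R l

theorem d2_shR0 (R U : ℕ) : Nat.add (Nat.shiftLeft (Nat.sub R (Nat.land R U)) 256)
    (Nat.land R U) = (R - (R &&& U)) * 2 ^ 256 + (R &&& U) := by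
  have h : Nat.shiftLeft (Nat.sub R (Nat.land R U)) 256 = (R - (R &&& U)) * 2 ^ 256 :=
    Nat.shiftLeft_eq _ _
  rw [h]
  rfl

theorem d2_frog0 (S B0 B1 B2 U nf X : ℕ) : Nat.add (Nat.land (Nat.add (Nat.mul 3 S)
      (Nat.mul 2 (Nat.add B0 (Nat.add B1 B2)))) U) (Nat.mul nf X) =
    Nat.land (3 * S + 2 * (B0 + (B1 + B2))) U + nf * X := rfl

theorem d2_frog1 (nf X : ℕ) : Nat.mul (Nat.add 9 nf) X = (9 + nf) * X := rfl

theorem d2_shR {R : ℕ} (h : R < 2 ^ 65536) : shR R = ofL (d2s R) 1028 := by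
  have hR : R = ofL (dg R) 1024 := eq_ofL (d2_exp h le_rfl)
  have hle : R &&& TOP ≤ R := Nat.and_le_left
  have hT : ∀ L, 1024 ≤ L → R &&& TOP = ofL (d2h R) L := by
    intro L hL
    rw [eq_ofL (X := R &&& TOP) (L := L) (lt_of_le_of_lt hle (d2_exp h hL))]
    refine ofL_congr fun l _ => ?_
    rw [dg_land]
    rfl
  have h1 : R - (R &&& TOP) = ofL (fun l => dg R l - d2h R l) 1024 := by
    rw [← d2_ofL_sub _ _ _ (d2h_le R), ← hR, ← hT 1024 le_rfl]
  have h2 : shR R = (R - (R &&& TOP)) * 2 ^ 256 + (R &&& TOP) := by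
    unfold shR
    exact d2_shR0 R TOP
  rw [h2, h1, d2_shift, hT 1028 (by norm_num), ofL_add]
  rfl

theorem d2s_le {R : ℕ} (h : Good R) (l : ℕ) : d2s R l ≤ 2 ^ 29 := by
  have h1 := d2_good h (l - 4)
  have h2 := d2_good h l
  have h3 := d2h_le R l
  unfold d2s
  split_ifs <;> omega

/-- the mask of fifteen blocks -/
theorem d2_window (s : ℕ → ℕ) (L : ℕ) (hs : ∀ l < L, s l < 2 ^ 64) (hL : 960 ≤ L) :
    ofL s L % 2 ^ (64 * 960) = ofL s 960 := by
  rw [eq_ofL (X := ofL s L % 2 ^ (64 * 960)) (L := 960) (Nat.mod_lt _ (by positivity))]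
  refine ofL_congr fun l hl => ?_
  rw [dg_mod hl, dg_ofL hs l (by omega)]

/-- shift by one block -/
theorem d2_down {R : ℕ} (h : R < 2 ^ 65536) :
    Nat.shiftRight R 4096 = ofL (fun l => dg R (l + 64)) 960 := by
  have h0 : Nat.shiftRight R 4096 = R / 2 ^ (64 * 64) := Nat.shiftRight_eq_div_pow R 4096
  have h1 : R / 2 ^ (64 * 64) < 2 ^ (64 * 960) := by
    rw [Nat.div_lt_iff_lt_mul (by positivity), ← pow_add]
    exact lt_of_lt_of_le h (Nat.pow_le_pow_right (by norm_num) (by norm_num))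
  rw [h0, eq_ofL h1]
  refine ofL_congr fun l _ => ?_
  rw [dg_div]

/-- D2: the rule for frogs -/
theorem kfrog : KFrog := by
  intro R A0 A1 A2 L nf hR h0 h1 h2 hL hnf h N hN m t hm ht
  have e0 : A0 = ofL (dg A0) 1028 := eq_ofL (d2_exp h0.1 (by norm_num))
  have e1 : A1 = ofL (dg A1) 1028 := eq_ofL (d2_exp h1.1 (by norm_num))
  have e2 : A2 = ofL (dg A2) 1028 := eq_ofL (d2_exp h2.1 (by norm_num))
  have hS : 3 * shR R + 2 * (A0 + (A1 + A2)) =
      ofL (fun l => 3 * d2s R l + 2 * (dg A0 l + (dg A1 l + dg A2 l))) 1028 := by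
    rw [d2_shR hR.1, mul_ofL]
    conv_lhs => rw [e0, e1, e2]
    rw [ofL_add, ofL_add, mul_ofL, ofL_add]
  have hb : ∀ l, 3 * d2s R l + 2 * (dg A0 l + (dg A1 l + dg A2 l)) ≤ 2 ^ 33 := by
    intro l
    have a := d2s_le hR l
    have b := d2_good h0 l
    have c := d2_good h1 l
    have d := d2_good h2 l
    omega
  have hX : Nat.add (Nat.land (Nat.add (Nat.mul 3 (shR R))
      (Nat.mul 2 (Nat.add A0 (Nat.add A1 A2)))) MR) (Nat.mul nf (Nat.shiftRight L 4096)) =
      ofL (fun l => (3 * d2s R l + 2 * (dg A0 l + (dg A1 l + dg A2 l))) +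
        nf * dg L (l + 64)) 960 := by
    rw [d2_frog0, d2_land_MR, d2_down hL.1, hS, d2_window _ _ (fun l _ => lt_of_le_of_lt (hb l) (by norm_num)) (by norm_num),
      mul_ofL, ofL_add]
  have hY : Nat.mul (Nat.add 9 nf) (Nat.shiftRight R 4096) =
      ofL (fun l => (9 + nf) * dg R (l + 64)) 960 := by
    rw [d2_frog1, d2_down hR.1, mul_ofL]
  have hc : (Nat.add (Nat.land (Nat.add (Nat.mul 3 (shR R))
      (Nat.mul 2 (Nat.add A0 (Nat.add A1 A2)))) MR) (Nat.mul nf (Nat.shiftRight L 4096)) +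
      BIf 960 - Nat.mul (Nat.add 9 nf) (Nat.shiftRight R 4096)) &&& BIf 960 = BIf 960 := by
    rw [← d2_B960]
    exact Nat.eq_of_beq_eq_true h
  have key := cmp hX hY (fun l _ => by
      have a := hb l
      have b := d2_good hL (l + 64)
      have c : nf * dg L (l + 64) ≤ 3 * 2 ^ 28 := Nat.mul_le_mul hnf b
      omega) (fun l _ => by
      have b := d2_good hR (l + 64)
      have c : (9 + nf) * dg R (l + 64) ≤ 12 * 2 ^ 28 := Nat.mul_le_mul (by omega) b
      omega) hc (64 * N + (4 * m + t)) (by omega)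
  rw [show 64 * (N + 1) + (4 * m + t) = 64 * N + (4 * m + t) + 64 by ring]
  have hs : d2s R (64 * N + (4 * m + t)) =
      (if m = 0 then 0 else dg R (64 * N + (4 * (m - 1) + t))) +
        if m = 15 then dg R (64 * N + (4 * 15 + t)) else 0 := by
    unfold d2s
    congr 1
    · by_cases hm0 : m = 0
      · rw [if_pos hm0]
        split_ifs with h4
        · rfl
        · rw [d2h_eq R _ (by omega), if_pos (by omega), Nat.sub_self]
      · rw [if_neg hm0, if_neg (by omega), d2h_eq R _ (by omega), if_neg (by omega), Nat.sub_zero]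
        congr 1
        omega
    · rw [d2h_eq R _ (by omega)]
      by_cases hm15 : m = 15
      · rw [if_pos hm15, if_pos (by omega), hm15]
      · rw [if_neg hm15, if_neg (by omega)]
  rw [← hs]
  linarith

end Pool.Agent.H80.T3.K
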