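import Pool.Agent.H80.T3.K.D4

/-!
# MP_2b43a6_pr, project T3: row D3, dots and pending runs, lanes
-/

set_option autoImplicit false

namespace Pool.Agent.H80.T3.K

open Finset
open Pool.Agent.H92.Frog.K (dg ofL BIf)

theorem d3_mono {X B C : ℕ} {f g : ℕ → ℕ} (h : Pk X f B) (hfg : ∀ l, f l = g l) (hBC : B ≤ C) :
    Pk X g C := by
  obtain rfl : f = g := funext hfg
  exact ⟨h.1, fun l hl => (h.2 l hl).trans hBC⟩

theorem d3_zero : Pk 0 (fun _ => 0) 0 := by
  refine ⟨?_, fun l _ => le_refl _⟩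
  unfold ofL
  exact (sum_eq_zero fun i _ => zero_mul _).symm

/-- a block of a good row -/
theorem d3_blk (h : KLaw) {R : ℕ} (hR : Good R) {N : ℕ} (hN : N < 16) :
    Pk (blk R N) (fun l => dg R (64 * N + l)) (2 ^ 28) := by
  refine ⟨?_, fun l hl => ?_⟩
  · rw [← Pool.Agent.H92.Frog.K.ofL_congr (f := dg (blk R N)) (fun l hl => h.2.2.1 R N l hl)]
    exact Pool.Agent.H92.Frog.K.eq_ofL (h.2.2.2 R N)
  · exact (single_le_sum (f := fun l => dg R (64 * N + l)) (fun i _ => Nat.zero_le _)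
      (mem_range.mpr hl)).trans (hR.2 N hN)

/-- a lane of a packed law -/
theorem d3_law {E : ℕ} (h : GoodE E) {l : ℕ} (hl : l < 64) : dg E l ≤ 2 ^ 28 :=
  (single_le_sum (f := fun l => dg E l) (fun i _ => Nat.zero_le _) (mem_range.mpr hl)).trans h.2

theorem d3_lane (C k : ℕ) : Nat.land (Nat.shiftRight C (Nat.mul 64 k)) M64 = dg C k := by
  have h1 : Nat.land (Nat.shiftRight C (Nat.mul 64 k)) M64 =
    (C >>> (64 * k)) &&& (2 ^ 64 - 1) := rfl
  rw [h1, Nat.and_two_pow_sub_one_eq_mod, Nat.shiftRight_eq_div_pow]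
  rfl

theorem d3_lane4 (C k : ℕ) : Nat.land (Nat.shiftRight C (Nat.mul 256 k)) M64 = dg C (4 * k) := by
  rw [← d3_lane]
  have h1 : Nat.mul 64 (4 * k) = Nat.mul 256 k := by
    show 64 * (4 * k) = 256 * k
    ring
  rw [h1]

theorem d3_shift (C t j : ℕ) : dg (Nat.shiftRight C (Nat.mul 64 t)) j = dg C (j + t) := by
  have h1 : Nat.shiftRight C (Nat.mul 64 t) = C >>> (64 * t) := rfl
  rw [h1, Nat.shiftRight_eq_div_pow, Pool.Agent.H92.Frog.K.dg_div]

theorem d3_dotn (h : KLaw) {C R : ℕ} (hC : ∀ k < 16, dg C (4 * k) ≤ 2 ^ 28) (hR : Good R)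
    (n : ℕ) (hn : n ≤ 16) :
    Pk (Nat.rec (motive := fun _ => Nat) 0
      (fun k ih => Nat.add ih (Nat.mul (Nat.land (Nat.shiftRight C (Nat.mul 256 k)) M64)
        (blk R k))) n)
      (fun l => ∑ k ∈ range n, dg C (4 * k) * dg R (64 * k + l)) (n * 2 ^ 56) := by
  induction n with
  | zero =>
    exact d3_mono d3_zero (fun l => by rw [range_zero, sum_empty]) (Nat.zero_le _)
  | succ n ih =>
    have h1 := ih (by omega)
    have h2 := pk_mul (dg C (4 * n)) (d3_blk h hR (N := n) (by omega))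
    rw [← d3_lane4] at h2
    have h3 := pk_add h1 h2
    refine d3_mono h3 (fun l => ?_) ?_
    · rw [sum_range_succ, d3_lane4]
    · rw [d3_lane4]
      have h4 := hC n (by omega)
      have h5 : dg C (4 * n) * 2 ^ 28 ≤ 2 ^ 28 * 2 ^ 28 := Nat.mul_le_mul_right _ h4
      calc n * 2 ^ 56 + dg C (4 * n) * 2 ^ 28 ≤ n * 2 ^ 56 + 2 ^ 28 * 2 ^ 28 :=
            Nat.add_le_add_left h5 _
        _ = (n + 1) * 2 ^ 56 := by ring

theorem d3_dot (h : KLaw) {C R t : ℕ} (hC : GoodE C) (ht : t < 4) (hR : Good R) :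
    Pk (dot (Nat.shiftRight C (Nat.mul 64 t)) R)
      (fun l => ∑ r ∈ range 16, dg C (4 * r + t) * dg R (64 * r + l)) (16 * 2 ^ 56) := by
  have h1 : ∀ k < 16, dg (Nat.shiftRight C (Nat.mul 64 t)) (4 * k) ≤ 2 ^ 28 := by
    intro k hk
    rw [d3_shift]
    exact d3_law hC (by omega)
  refine d3_mono (d3_dotn h h1 hR 16 (le_refl _)) (fun l => ?_) (le_refl _)
  exact sum_congr rfl fun k _ => by rw [d3_shift]

theorem d3_dots (h : KLaw) {T : Tr} {C K' : ℕ} (hC : GoodE C) (k : ℕ) (hk : k ≤ 4)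
    (hT : ∀ t < k, Good (look T (K' + wT t))) :
    Pk (dots T C K' k) (fun l => ∑ r ∈ range 16, ∑ t ∈ range k,
      dg C (4 * r + t) * dg (look T (K' + wT t)) (64 * r + l)) (k * (16 * 2 ^ 56)) := by
  induction k with
  | zero =>
    refine d3_mono d3_zero (fun l => ?_) (Nat.zero_le _)
    exact (sum_eq_zero fun i _ => by rw [range_zero, sum_empty]).symm
  | succ k ih =>
    have h1 := ih (by omega) (fun t ht => hT t (by omega))
    have h2 := d3_dot h hC (t := k) (by omega) (hT k (by omega))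
    have h3 := pk_add h1 h2
    have h4 : dots T C K' (k + 1) = Nat.add (dots T C K' k)
      (dot (Nat.shiftRight C (Nat.mul 64 k)) (look T (K' + wT k))) := rfl
    rw [h4]
    refine d3_mono h3 (fun l => ?_) (le_of_eq (by ring))
    rw [← sum_add_distrib]
    exact sum_congr rfl fun r _ => by rw [sum_range_succ]

theorem kproc (h : KLaw) : KProc := by
  refine ⟨?_, ?_, ?_⟩
  · intro T C K' R hC hR hT hp l hl
    have h1 := d3_dots h hC 4 (le_refl _) hT
    have h2 := pk_mul (Nat.pow 2 28) (d3_blk h hR (N := 0) (by norm_num))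
    have h3 := pk_gek h1 h2 (by norm_num) (by norm_num) hp l hl
    rw [Nat.mul_zero, Nat.zero_add] at h3
    exact h3
  · intro T C k K' R hk1 hk3 hC hR hT hp l hl
    have h1 := d3_dots h hC k (by omega) (fun t ht => hT t (by omega))
    have h2 := pk_mul (Nat.pow 2 28) (d3_blk h hR (N := 0) (by norm_num))
    have h4 := pk_mul (dg C k) (d3_blk h (hT k (le_refl _)) (N := 0) (by norm_num))
    have h4' := d3_mono (C := 2 ^ 56) h4 (fun _ => rfl) (by
      have h5 := Nat.mul_le_mul_right (2 ^ 28) (d3_law hC (l := k) (by omega))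
      exact h5.trans (le_of_eq (by norm_num)))
    rw [← d3_lane] at h4'
    have h6 := pk_add h4' h1
    have hb : 2 ^ 56 + k * (16 * 2 ^ 56) < 2 ^ 63 := by
      have : k * (16 * 2 ^ 56) ≤ 3 * (16 * 2 ^ 56) := Nat.mul_le_mul_right _ hk3
      exact (Nat.add_le_add_left this _).trans_lt (by norm_num)
    have h3 := pk_gek h6 h2 hb (by norm_num) hp l hl
    rw [Nat.mul_zero, Nat.zero_add, d3_lane] at h3
    exact h3
  · intro T K' R hR h6 h5 hp l hl
    have h1 := pk_mul 2 (d3_blk h h6 (N := 0) (by norm_num))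
    have h2 := d3_blk h h5 (N := 1) (by norm_num)
    have h3 := pk_mul 3 (d3_blk h hR (N := 0) (by norm_num))
    have h4 := pk_gek (pk_add h1 h2) h3 (by norm_num) (by norm_num) hp l hl
    rw [Nat.mul_zero, Nat.zero_add, Nat.mul_one] at h4
    exact h4

end Pool.Agent.H80.T3.K
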