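import Pool.Agent.H80.T3.K.KStm

/-!
# MP_2b43a6_pr, project T3: the laws of the next level (D6)

The averages over the starts (D5) and the lanewise inequalities (D4) give `Nxt` for the table.
-/

set_option autoImplicit false

namespace Pool.Agent.H80.T3.K

open Pool.Agent.H92.Frog.K (dg)

/-- lanes in groups of four -/
theorem d6_sum (f : ℕ → ℝ) (n : ℕ) :
    ∑ m ∈ Finset.range n, ∑ t ∈ Finset.range 4, f (4 * m + t) =
      ∑ l ∈ Finset.range (4 * n), f l := by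
  induction n with
  | zero => simp
  | succ n ih =>
    rw [Finset.sum_range_succ, ih, show 4 * (n + 1) = 4 * n + 4 by ring, Finset.sum_range_add]

/-- a packed law is a law -/
theorem d6_law (C : ℕ) (h : ∑ l ∈ Finset.range 64, dg C l ≤ 2 ^ 28) : IsLaw 15 (toL C) := by
  constructor
  · intro m t
    unfold toL
    split_ifs
    · positivity
    · exact le_refl _
  · have e : ∑ m ∈ Finset.range (15 + 1), ∑ t ∈ Finset.range 4, toL C m t =
        ∑ m ∈ Finset.range 16, ∑ t ∈ Finset.range 4, (dg C (4 * m + t) : ℝ) / 2 ^ 28 := by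
      refine Finset.sum_congr rfl fun m hm => Finset.sum_congr rfl fun t ht => ?_
      have h1 := Finset.mem_range.1 hm
      have h2 := Finset.mem_range.1 ht
      unfold toL
      rw [if_pos ⟨by omega, h2⟩]
    rw [e, d6_sum (fun l : ℕ => (dg C l : ℝ) / 2 ^ 28) 16]
    have h' : ((∑ l ∈ Finset.range (4 * 16), dg C l : ℕ) : ℝ) ≤ ((2 ^ 28 : ℕ) : ℝ) :=
      Nat.cast_le.2 h
    rw [← Finset.sum_div, div_le_one (by positivity)]
    exact_mod_cast h'

/-- the zero law -/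
theorem d6_law0 : IsLaw 15 (toL 0) := by
  apply d6_law
  have : ∀ l ∈ Finset.range 64, dg 0 l = 0 := by
    intro l _
    simp [dg]
  rw [Finset.sum_eq_zero this]
  positivity

/-- a lane of an entry -/
noncomputable def d6_g (T : Tr) (j key : ℕ) : ℝ := (dg (look T key) j : ℝ) / 2 ^ 28

/-- entries of the table -/
theorem d6_XT (T : Tr) (s : Fin 3 → St) (N m t : ℕ) (hm : m ≤ 15) (ht : t < 4) :
    XT T s N m t = d6_g T (64 * N + (4 * m + t)) (keyS s) := by
  unfold XT d6_g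
  rw [if_pos ⟨by omega, ht⟩]

/-- entries of the laws -/
theorem d6_toL (C m t : ℕ) (hm : m ≤ 15) (ht : t < 4) :
    toL C m t = (dg C (4 * m + t) : ℝ) / 2 ^ 28 := by
  unfold toL
  rw [if_pos ⟨by omega, ht⟩]

/-- three entries -/
theorem d6_l3 (q a b c u v x : ℕ) (h : 660 * q ≤ u * a + v * b + x * c) :
    (q : ℝ) / 2 ^ 28 ≤ ((u : ℝ) * ((a : ℝ) / 2 ^ 28) + (v : ℝ) * ((b : ℝ) / 2 ^ 28) +
      (x : ℝ) * ((c : ℝ) / 2 ^ 28)) / 660 := by
  have h' : (660 : ℝ) * q ≤ u * a + v * b + x * c := by exact_mod_cast h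
  rw [le_div_iff₀ (by norm_num)]
  have e1 : (q : ℝ) / 2 ^ 28 * 660 = (660 * q) / 2 ^ 28 := by ring
  have e2 : (u : ℝ) * ((a : ℝ) / 2 ^ 28) + (v : ℝ) * ((b : ℝ) / 2 ^ 28) +
      (x : ℝ) * ((c : ℝ) / 2 ^ 28) = (u * a + v * b + x * c) / 2 ^ 28 := by ring
  rw [e1, e2]
  exact div_le_div_of_nonneg_right h' (by positivity)

/-- five entries -/
theorem d6_l5 (q a b c d e u v x y z D : ℕ) (hD : 0 < D)
    (h : D * q ≤ u * a + v * b + x * c + y * d + z * e) :
    (q : ℝ) / 2 ^ 28 ≤ ((u : ℝ) * ((a : ℝ) / 2 ^ 28) + (v : ℝ) * ((b : ℝ) / 2 ^ 28) +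
      (x : ℝ) * ((c : ℝ) / 2 ^ 28) + (y : ℝ) * ((d : ℝ) / 2 ^ 28) +
      (z : ℝ) * ((e : ℝ) / 2 ^ 28)) / (D : ℝ) := by
  have h' : (D : ℝ) * q ≤ u * a + v * b + x * c + y * d + z * e := by exact_mod_cast h
  have hD' : (0 : ℝ) < D := Nat.cast_pos.2 hD
  rw [le_div_iff₀ hD']
  have e1 : (q : ℝ) / 2 ^ 28 * D = (D * q) / 2 ^ 28 := by ring
  have e2 : (u : ℝ) * ((a : ℝ) / 2 ^ 28) + (v : ℝ) * ((b : ℝ) / 2 ^ 28) +
      (x : ℝ) * ((c : ℝ) / 2 ^ 28) + (y : ℝ) * ((d : ℝ) / 2 ^ 28) +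
      (z : ℝ) * ((e : ℝ) / 2 ^ 28) = (u * a + v * b + x * c + y * d + z * e) / 2 ^ 28 := by ring
  rw [e1, e2]
  exact div_le_div_of_nonneg_right h' (by positivity)

/-- D6: the next level -/
theorem knxt (h1 : KNx) (h2 : KSt) : KNxt := by
  intro T Q hT hc
  obtain ⟨hQ, hl⟩ := h1 T Q hT hc
  refine ⟨hQ, ?_⟩
  obtain ⟨g1, g2, g3, g4, g5⟩ := hQ
  refine ⟨d6_law _ g1.2, d6_law _ g2.2, ?_, ?_, ?_, ?_⟩
  · intro k
    by_cases k1 : k = 1
    · simpa only [lawsK, k1, if_true] using d6_law _ g3.2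
    by_cases k2 : k = 2
    · subst k2
      simpa only [lawsK, if_neg k1, if_true] using d6_law _ g4.2
    by_cases k3 : k = 3
    · subst k3
      simpa only [lawsK, if_neg k1, if_neg k2, if_true] using d6_law _ g5.2
    · simpa only [lawsK, if_neg k1, if_neg k2, if_neg k3] using d6_law0
  · intro m t hm ht h0
    have hl' := (hl (4 * m + t) (by omega) (by omega)).1
    have e : ∑ B : Finset (Fin 3), pB B * ((1 / 3) * ∑ i : Fin 3,
        XT T (start 3 [(B, i)]) 1 m t) = ∑ B : Finset (Fin 3), pB B * ((1 / 3) * ∑ i : Fin 3,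
        d6_g T (64 * 1 + (4 * m + t)) (keyS (start 3 [(B, i)]))) :=
      Finset.sum_congr rfl fun B _ => by
        congr 2
        exact Finset.sum_congr rfl fun i _ => d6_XT T _ 1 m t hm ht
    rw [e, (h2 (d6_g T (64 * 1 + (4 * m + t)))).1]
    show toL Q.F1 m t ≤ _
    rw [d6_toL _ m t hm ht]
    simp only [d6_g]
    simp only [en] at hl'
    exact_mod_cast d6_l3 _ _ _ _ _ _ _ hl'
  · intro m t hm ht h0
    have hl' := (hl (4 * m + t) (by omega) (by omega)).2.1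
    have e : ∑ B : Finset (Fin 3), pB B * ((1 / 3) * ∑ i : Fin 3,
        ∑ B' : Finset (Fin 3), pB B' * ((1 / 3) * ∑ i' : Fin 3,
        XT T (start 3 [(B, i), (B', i')]) 1 m t)) =
        ∑ B : Finset (Fin 3), pB B * ((1 / 3) * ∑ i : Fin 3,
        ∑ B' : Finset (Fin 3), pB B' * ((1 / 3) * ∑ i' : Fin 3,
        d6_g T (64 * 1 + (4 * m + t)) (keyS (start 3 [(B, i), (B', i')])))) :=
      Finset.sum_congr rfl fun B _ => by
        congr 2
        refine Finset.sum_congr rfl fun i _ => Finset.sum_congr rfl fun B' _ => ?_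
        congr 2
        exact Finset.sum_congr rfl fun i' _ => d6_XT T _ 1 m t hm ht
    rw [e, (h2 (d6_g T (64 * 1 + (4 * m + t)))).2.1]
    show toL Q.F2 m t ≤ _
    rw [d6_toL _ m t hm ht]
    simp only [d6_g]
    simp only [en] at hl'
    exact_mod_cast d6_l5 _ _ _ _ _ _ _ _ _ _ _ _ (by norm_num) hl'
  · intro k k1 k3 m t hm ht h0
    have hl' := hl (4 * m + t) (by omega) (by omega)
    have e : ∑ B : Finset (Fin 3), pB B * ((1 / 3) * ∑ i : Fin 3,
        XT T (start k [(B, i)]) 0 m t) = ∑ B : Finset (Fin 3), pB B * ((1 / 3) * ∑ i : Fin 3,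
        d6_g T (64 * 0 + (4 * m + t)) (keyS (start k [(B, i)]))) :=
      Finset.sum_congr rfl fun B _ => by
        congr 2
        exact Finset.sum_congr rfl fun i _ => d6_XT T _ 0 m t hm ht
    rw [e]
    obtain rfl | rfl | rfl : k = 1 ∨ k = 2 ∨ k = 3 := by omega
    · rw [(h2 (d6_g T (64 * 0 + (4 * m + t)))).2.2.1]
      show toL Q.T1 m t ≤ _
      rw [d6_toL _ m t hm ht]
      simp only [d6_g]
      simp only [en] at hl'
      exact_mod_cast d6_l3 _ _ _ _ _ _ _ hl'.2.2.1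
    · rw [(h2 (d6_g T (64 * 0 + (4 * m + t)))).2.2.2]
      show toL Q.T2 m t ≤ _
      rw [d6_toL _ m t hm ht]
      simp only [d6_g]
      simp only [en] at hl'
      exact_mod_cast d6_l5 _ _ _ _ _ _ _ _ _ _ _ _ (by norm_num) hl'.2.2.2.1
    · rw [(h2 (d6_g T (64 * 0 + (4 * m + t)))).1]
      show toL Q.T3 m t ≤ _
      rw [d6_toL _ m t hm ht]
      simp only [d6_g]
      simp only [en] at hl'
      exact_mod_cast d6_l3 _ _ _ _ _ _ _ hl'.2.2.2.2

end Pool.Agent.H80.T3.K
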