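import Pool.Agent.H80.T3.K.D7a

/-!
# MP_2b43a6_pr, project T3: the table
-/

set_option autoImplicit false

namespace Pool.Agent.H80.T3.K

open Pool.Agent.H92.Frog.K (dg)

/-! ### the rule for frogs -/

theorem d7_ble1 {n : ℕ} (h : 1 ≤ n) : (Nat.ble 1 n).toNat = 1 := by
  rw [Nat.ble_eq_true_of_le h]
  rfl

theorem d7_keyL (s : Fin 3 → St) {i : Fin 3} (hi : s i = St.F) :
    Nat.add (Nat.sub (keyS s) (Nat.mul (Nat.ble 1 (nF s)).toNat (w 7)))
      (Nat.mul (Nat.ble 1 (nF s)).toNat (w 8)) = keyS (Function.update s i St.FL) := by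
  have h1 : 1 ≤ nF s := by
    unfold nF
    exact Finset.card_pos.mpr ⟨i, by simp [hi]⟩
  rw [d7_ble1 h1, ← d7_key_update, hi]
  change keyS s - 1 * w 7 + 1 * w 8 = keyS s - w 7 + w 8
  rw [one_mul, one_mul]

theorem d7_nF_sum (s : Fin 3 → St) (L : ℕ) :
    nF s * L = ∑ i : Fin 3, (if s i = St.F then L else 0) := by
  unfold nF
  rw [Finset.card_filter, Finset.sum_mul]
  refine Finset.sum_congr rfl (fun i _ => ?_)
  split_ifs <;> ring

theorem d7_nF_zero {s : Fin 3 → St} (h : ¬ ∃ i, s i = St.F) : nF s = 0 := by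
  unfold nF
  rw [Finset.card_eq_zero, Finset.filter_eq_empty_iff]
  exact fun i _ hi => h ⟨i, hi⟩

/-- the rule for frogs in the lanes -/
theorem d7_frogN {T : Tr} {P : Lw} (h1 : KLaw) (h2 : KFrog) (hc : chkAll T P = true)
    (s : Fin 3 → St) {N m t : ℕ} (hN : N < 15) (hm : m ≤ 15) (ht : t < 4) :
    (9 + nF s) * dg (look T (keyS s)) (64 * (N + 1) + (4 * m + t)) ≤
      3 * ((if m = 0 then 0 else dg (look T (keyS s)) (64 * N + (4 * (m - 1) + t))) +
        if m = 15 then dg (look T (keyS s)) (64 * N + (4 * 15 + t)) else 0) +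
      2 * (∑ i : Fin 3,
        dg (look T (keyS (Function.update s i (s i).addA))) (64 * N + (4 * m + t))) +
      ∑ i : Fin 3, (if s i = St.F then
        dg (look T (keyS (Function.update s i St.FL))) (64 * (N + 1) + (4 * m + t)) else 0) := by
  obtain ⟨σ, -, -, hσ⟩ := d7_chk hc s
  have hf := (d7_parts hσ).2.1
  have hg := fun s' => d7_good h1 hc s'
  have hL : Good (look T (Nat.add (Nat.sub (keyS s) (Nat.mul (Nat.ble 1 (nF s)).toNat (w 7)))
      (Nat.mul (Nat.ble 1 (nF s)).toNat (w 8)))) := by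
    by_cases h : ∃ i, s i = St.F
    · obtain ⟨i, hi⟩ := h
      rw [d7_keyL s hi]
      exact hg _
    · rw [d7_nF_zero h]
      have e : Nat.add (Nat.sub (keyS s) (Nat.mul (Nat.ble 1 0).toNat (w 7)))
          (Nat.mul (Nat.ble 1 0).toNat (w 8)) = keyS s := by
        change keyS s - 0 * w 7 + 0 * w 8 = keyS s
        rw [zero_mul, zero_mul, Nat.sub_zero, Nat.add_zero]
      rw [e]
      exact hg _
  have h3 := h2 _ _ _ _ _ _ (hg s) (hg _) (hg _) (hg _) hL (d7_nF_le s) hf N hN m t hm ht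
  have e1 : ∑ i : Fin 3,
      dg (look T (keyS (Function.update s i (s i).addA))) (64 * N + (4 * m + t)) =
      dg (look T (keyS (Function.update s (σ 0) (s (σ 0)).addA))) (64 * N + (4 * m + t)) +
      dg (look T (keyS (Function.update s (σ 1) (s (σ 1)).addA))) (64 * N + (4 * m + t)) +
      dg (look T (keyS (Function.update s (σ 2) (s (σ 2)).addA))) (64 * N + (4 * m + t)) := by
    rw [← Equiv.sum_comp σ, Fin.sum_univ_three]
  have e2 : ∑ i : Fin 3, (if s i = St.F then
      dg (look T (keyS (Function.update s i St.FL))) (64 * (N + 1) + (4 * m + t)) else 0) =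
      nF s * dg (look T (Nat.add (Nat.sub (keyS s) (Nat.mul (Nat.ble 1 (nF s)).toNat (w 7)))
        (Nat.mul (Nat.ble 1 (nF s)).toNat (w 8)))) (64 * (N + 1) + (4 * m + t)) := by
    rw [d7_nF_sum]
    refine Finset.sum_congr rfl (fun i _ => ?_)
    by_cases hi : s i = St.F
    · rw [if_pos hi, if_pos hi, d7_keyL s hi]
    · rw [if_neg hi, if_neg hi]
  rw [e1, e2]
  exact h3

theorem d7_frog {T : Tr} {P : Lw} (h1 : KLaw) (h2 : KFrog) (hc : chkAll T P = true)
    (s : Fin 3 → St) (N : ℕ) (hN : N + 1 ≤ 15) (m t : ℕ) (hm : m ≤ 15) (ht : t < 4) :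
    (9 + (nF s : ℝ)) * XT T s (N + 1) m t ≤ 3 * shf 15 (XT T s N) m t +
      2 * ∑ i : Fin 3, XT T (Function.update s i (s i).addA) N m t +
      ∑ i : Fin 3, if s i = St.F then XT T (Function.update s i St.FL) (N + 1) m t else 0 := by
  have h := d7_frogN h1 h2 hc s (N := N) (by omega) hm ht
  have h' := (Nat.cast_le (α := ℝ)).mpr h
  push_cast at h'
  have hm' : m < 16 := by omega
  have e1 : XT T s (N + 1) m t =
      (dg (look T (keyS s)) (64 * (N + 1) + (4 * m + t)) : ℝ) / 2 ^ 28 := d7_XT T s _ hm' ht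
  have e2 : ∑ i : Fin 3, XT T (Function.update s i (s i).addA) N m t =
      (∑ i : Fin 3, (dg (look T (keyS (Function.update s i (s i).addA)))
        (64 * N + (4 * m + t)) : ℝ)) / 2 ^ 28 := by
    rw [Finset.sum_div]
    exact Finset.sum_congr rfl (fun i _ => d7_XT T _ _ hm' ht)
  have e3 : (∑ i : Fin 3, if s i = St.F then XT T (Function.update s i St.FL) (N + 1) m t
      else 0) = (∑ i : Fin 3, if s i = St.F then (dg (look T (keyS (Function.update s i St.FL)))
        (64 * (N + 1) + (4 * m + t)) : ℝ) else 0) / 2 ^ 28 := by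
    rw [Finset.sum_div]
    refine Finset.sum_congr rfl (fun i _ => ?_)
    by_cases hi : s i = St.F
    · rw [if_pos hi, if_pos hi]
      exact d7_XT T _ _ hm' ht
    · rw [if_neg hi, if_neg hi, zero_div]
  have e4 : shf 15 (XT T s N) m t =
      ((if m = 0 then 0 else (dg (look T (keyS s)) (64 * N + (4 * (m - 1) + t)) : ℝ)) +
        if m = 15 then (dg (look T (keyS s)) (64 * N + (4 * 15 + t)) : ℝ) else 0) / 2 ^ 28 := by
    unfold shf
    rw [add_div]
    congr 1
    · by_cases h0 : m = 0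
      · rw [if_pos h0, if_pos h0, zero_div]
      · rw [if_neg h0, if_neg h0]
        exact d7_XT T s N (by omega) ht
    · by_cases h0 : m = 15
      · rw [if_pos h0, if_pos h0]
        exact d7_XT T s N (by omega) ht
      · rw [if_neg h0, if_neg h0, zero_div]
  rw [e1, e2, e3, e4, ← mul_div_assoc, ← mul_div_assoc, ← mul_div_assoc, ← add_div, ← add_div]
  exact div_le_div_of_nonneg_right h' (by positivity)

/-! ### pending runs -/

theorem d7_keyT (s : Fin 3 → St) (i : Fin 3) (c : ℕ) (hc : code (s i) = c) (b : St) :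
    Nat.add (Nat.sub (keyS s) (w c)) (w (code b)) = keyS (Function.update s i b) := by
  rw [← hc]
  exact d7_key_update s i b

theorem d7_keyW (s : Fin 3 → St) (i : Fin 3) (c : ℕ) (hc : code (s i) = c) (t : ℕ) (ht : t < 4) :
    (Nat.sub (keyS s) (w c)) + wT t = keyS (Function.update s i (St.ofT t)) := by
  unfold wT
  rw [d7_dig t ht]
  exact d7_keyT s i c hc _

/-- products of lanes -/
theorem d7_sums (C : ℕ) (k : ℕ) (hk : k ≤ 4) (Y : ℕ → ℕ → ℕ) :
    ∑ r ∈ Finset.range 16, ∑ t ∈ Finset.range k, toL C r t * ((Y t r : ℝ) / 2 ^ 28) =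
      ((∑ r ∈ Finset.range 16, ∑ t ∈ Finset.range k, dg C (4 * r + t) * Y t r : ℕ) : ℝ) /
        (2 ^ 28 * 2 ^ 28) := by
  rw [Nat.cast_sum, Finset.sum_div]
  refine Finset.sum_congr rfl (fun r hr => ?_)
  rw [Nat.cast_sum, Finset.sum_div]
  refine Finset.sum_congr rfl (fun t ht => ?_)
  rw [d7_toL C (Finset.mem_range.mp hr) (lt_of_lt_of_le (Finset.mem_range.mp ht) hk), Nat.cast_mul,
    div_mul_div_comm]

theorem d7_runF {T : Tr} (h3 : KProc) {C : ℕ} (hC : GoodE C)
    (hg : ∀ s' : Fin 3 → St, Good (look T (keyS s'))) (s : Fin 3 → St) (i : Fin 3) (c : ℕ)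
    (hc : code (s i) = c) (h : procF T C (Nat.sub (keyS s) (w c)) (look T (keyS s)) = true)
    {m t : ℕ} (hm : m ≤ 15) (ht : t < 4) :
    XT T s 0 m t ≤ ∑ r ∈ Finset.range (15 + 1), ∑ t' ∈ Finset.range 4,
      toL C r t' * XT T (Function.update s i (St.ofT t')) r m t := by
  have hm' : m < 16 := by omega
  have h4 := h3.1 T C _ _ hC (hg s) (fun t' ht' => by
    rw [d7_keyW s i c hc t' ht']
    exact hg _) h (4 * m + t) (by omega)
  have e1 : ∑ r ∈ Finset.range (15 + 1), ∑ t' ∈ Finset.range 4,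
      toL C r t' * XT T (Function.update s i (St.ofT t')) r m t =
      ∑ r ∈ Finset.range 16, ∑ t' ∈ Finset.range 4, toL C r t' *
        ((dg (look T (keyS (Function.update s i (St.ofT t')))) (64 * r + (4 * m + t)) : ℝ) /
          2 ^ 28) := by
    refine Finset.sum_congr rfl (fun r _ => Finset.sum_congr rfl (fun t' _ => ?_))
    rw [d7_XT T _ r hm' ht]
  rw [e1, d7_sums C 4 le_rfl (fun t' r =>
    dg (look T (keyS (Function.update s i (St.ofT t')))) (64 * r + (4 * m + t))),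
    d7_XT T s 0 hm' ht, le_div_iff₀ (by positivity)]
  have e2 : ∑ r ∈ Finset.range 16, ∑ t' ∈ Finset.range 4,
      dg C (4 * r + t') * dg (look T (Nat.sub (keyS s) (w c) + wT t')) (64 * r + (4 * m + t)) =
      ∑ r ∈ Finset.range 16, ∑ t' ∈ Finset.range 4,
      dg C (4 * r + t') *
        dg (look T (keyS (Function.update s i (St.ofT t')))) (64 * r + (4 * m + t)) := by
    refine Finset.sum_congr rfl (fun r _ => Finset.sum_congr rfl (fun t' ht' => ?_))
    rw [d7_keyW s i c hc t' (Finset.mem_range.mp ht')]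
  rw [e2] at h4
  have h5 := (Nat.cast_le (α := ℝ)).mpr h4
  refine le_trans (le_of_eq ?_) h5
  rw [Nat.cast_mul, mul_zero, zero_add]
  push_cast
  ring

theorem d7_runV {T : Tr} (h3 : KProc) {C : ℕ} (hC : GoodE C)
    (hg : ∀ s' : Fin 3 → St, Good (look T (keyS s'))) (s : Fin 3 → St) (i : Fin 3) (c k : ℕ)
    (hk1 : 1 ≤ k) (hk3 : k ≤ 3)
    (hc : code (s i) = c) (h : procV T C k (Nat.sub (keyS s) (w c)) (look T (keyS s)) = true)
    {m t : ℕ} (hm : m ≤ 15) (ht : t < 4) :
    XT T s 0 m t ≤ toL C 0 k * XT T (Function.update s i (St.ofT k)) 0 m t +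
      ∑ r ∈ Finset.range (15 + 1), ∑ t' ∈ Finset.range k,
      toL C r t' * XT T (Function.update s i (St.ofT t')) r m t := by
  have hm' : m < 16 := by omega
  have h4 := h3.2.1 T C k _ _ hk1 hk3 hC (hg s) (fun t' ht' => by
    rw [d7_keyW s i c hc t' (by omega)]
    exact hg _) h (4 * m + t) (by omega)
  have e1 : ∑ r ∈ Finset.range (15 + 1), ∑ t' ∈ Finset.range k,
      toL C r t' * XT T (Function.update s i (St.ofT t')) r m t =
      ∑ r ∈ Finset.range 16, ∑ t' ∈ Finset.range k, toL C r t' *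
        ((dg (look T (keyS (Function.update s i (St.ofT t')))) (64 * r + (4 * m + t)) : ℝ) /
          2 ^ 28) := by
    refine Finset.sum_congr rfl (fun r _ => Finset.sum_congr rfl (fun t' _ => ?_))
    rw [d7_XT T _ r hm' ht]
  rw [e1, d7_sums C k (by omega) (fun t' r =>
    dg (look T (keyS (Function.update s i (St.ofT t')))) (64 * r + (4 * m + t))),
    d7_XT T s 0 hm' ht, d7_XT T _ 0 hm' ht, d7_toL C (by norm_num : 0 < 16) (by omega : k < 4),
    div_mul_div_comm, ← add_div, le_div_iff₀ (by positivity)]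
  have e2 : ∑ r ∈ Finset.range 16, ∑ t' ∈ Finset.range k,
      dg C (4 * r + t') * dg (look T (Nat.sub (keyS s) (w c) + wT t')) (64 * r + (4 * m + t)) =
      ∑ r ∈ Finset.range 16, ∑ t' ∈ Finset.range k,
      dg C (4 * r + t') *
        dg (look T (keyS (Function.update s i (St.ofT t')))) (64 * r + (4 * m + t)) := by
    refine Finset.sum_congr rfl (fun r _ => Finset.sum_congr rfl (fun t' ht' => ?_))
    rw [d7_keyW s i c hc t' (by have := Finset.mem_range.mp ht'; omega)]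
  rw [e2, d7_keyW s i c hc k (by omega)] at h4
  have h5 := (Nat.cast_le (α := ℝ)).mpr h4
  rw [Nat.cast_add, Nat.cast_mul, Nat.cast_mul] at h5
  rw [mul_zero, zero_add, mul_zero, zero_add]
  refine le_trans (le_of_eq ?_) h5
  push_cast
  ring

theorem d7_runL {T : Tr} (h3 : KProc)
    (hg : ∀ s' : Fin 3 → St, Good (look T (keyS s'))) (s : Fin 3 → St) (i : Fin 3)
    (hc : code (s i) = 8) (h : procL T (Nat.sub (keyS s) (w 8)) (look T (keyS s)) = true)
    {m t : ℕ} (hm : m ≤ 15) (ht : t < 4) :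
    XT T s 0 m t ≤ (2 / 3) * XT T (Function.update s i St.V3A) 0 m t +
      (1 / 3) * XT T (Function.update s i St.V3) 1 m t := by
  have hm' : m < 16 := by omega
  have k6 : Nat.sub (keyS s) (w 8) + w 6 = keyS (Function.update s i St.V3A) :=
    d7_keyT s i 8 hc St.V3A
  have k5 : Nat.sub (keyS s) (w 8) + w 5 = keyS (Function.update s i St.V3) :=
    d7_keyT s i 8 hc St.V3
  have h4 := h3.2.2 T _ _ (hg s) (by rw [k6]; exact hg _) (by rw [k5]; exact hg _) h (4 * m + t)
    (by omega)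
  rw [k6, k5] at h4
  have h5 := (Nat.cast_le (α := ℝ)).mpr h4
  push_cast at h5
  rw [d7_XT T s 0 hm' ht, d7_XT T _ 0 hm' ht, d7_XT T _ 1 hm' ht, mul_zero, zero_add, mul_one]
  linarith

theorem d7_code2 {b : St} (h : code b = 2) : b = St.V1A := by
  cases b <;> first | rfl | exact absurd h (by decide)

theorem d7_code4 {b : St} (h : code b = 4) : b = St.V2A := by
  cases b <;> first | rfl | exact absurd h (by decide)

theorem d7_code6 {b : St} (h : code b = 6) : b = St.V3A := by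
  cases b <;> first | rfl | exact absurd h (by decide)

theorem d7_code8 {b : St} (h : code b = 8) : b = St.FL := by
  cases b <;> first | rfl | exact absurd h (by decide)

theorem d7_code9 {b : St} (h : code b = 9) : b = St.FA := by
  cases b <;> first | rfl | exact absurd h (by decide)

theorem d7_code10 {b : St} (h : code b = 10) : b = St.FAA := by
  cases b <;> first | rfl | exact absurd h (by decide)

/-- the conclusion of the rule for pending runs -/
def D7C (T : Tr) (P : Lw) (s : Fin 3 → St) (i : Fin 3) : Prop := ∀ m t, m ≤ 15 → t < 4 →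
  (s i = St.FL ∧ XT T s 0 m t ≤ (2 / 3) * XT T (Function.update s i St.V3A) 0 m t +
    (1 / 3) * XT T (Function.update s i St.V3) 1 m t) ∨
  (s i = St.FA ∧ XT T s 0 m t ≤ ∑ R ∈ Finset.range (15 + 1), ∑ t' ∈ Finset.range 4,
    (lawsK P).F1 R t' * XT T (Function.update s i (St.ofT t')) R m t) ∨
  (s i = St.FAA ∧ XT T s 0 m t ≤ ∑ R ∈ Finset.range (15 + 1), ∑ t' ∈ Finset.range 4,
    (lawsK P).F2 R t' * XT T (Function.update s i (St.ofT t')) R m t) ∨
  (∃ k, 1 ≤ k ∧ k ≤ 3 ∧ (s i).ty = k ∧ (s i).quiet = false ∧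
    XT T s 0 m t ≤ (lawsK P).Tl k 0 k * XT T (Function.update s i (St.ofT k)) 0 m t +
      ∑ R ∈ Finset.range (15 + 1), ∑ t' ∈ Finset.range k,
        (lawsK P).Tl k R t' * XT T (Function.update s i (St.ofT t')) R m t)

theorem d7_procC_sound {T : Tr} {P : Lw} (h3 : KProc) (hP : GoodP P)
    (hg : ∀ s' : Fin 3 → St, Good (look T (keyS s'))) (s : Fin 3 → St) (i : Fin 3) {e : Bool}
    (h : procC T P (keyS s) (look T (keyS s)) (code (s i)) e = true) :
    D7C T P s i ∨ (code (s i) ≠ 2 ∧ code (s i) ≠ 4 ∧ code (s i) ≠ 6 ∧ e = true) := by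
  rcases d7_procC h with ⟨hc, hv⟩ | ⟨hc, hv⟩ | ⟨hc, hv⟩ | h4
  · refine Or.inl (fun m t hm ht => Or.inr (Or.inr (Or.inr ⟨1, le_rfl, by omega, ?_, ?_, ?_⟩)))
    · rw [d7_code2 hc]
      rfl
    · rw [d7_code2 hc]
      rfl
    · exact d7_runV h3 hP.2.2.1 hg s i 2 1 le_rfl (by omega) hc hv hm ht
  · refine Or.inl (fun m t hm ht => Or.inr (Or.inr (Or.inr ⟨2, by omega, by omega, ?_, ?_, ?_⟩)))
    · rw [d7_code4 hc]
      rfl
    · rw [d7_code4 hc]
      rfl
    · exact d7_runV h3 hP.2.2.2.1 hg s i 4 2 (by omega) (by omega) hc hv hm ht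
  · refine Or.inl (fun m t hm ht => Or.inr (Or.inr (Or.inr ⟨3, by omega, by omega, ?_, ?_, ?_⟩)))
    · rw [d7_code6 hc]
      rfl
    · rw [d7_code6 hc]
      rfl
    · exact d7_runV h3 hP.2.2.2.2 hg s i 6 3 (by omega) (by omega) hc hv hm ht
  · exact Or.inr h4

theorem d7_procD_sound {T : Tr} {P : Lw} (h3 : KProc) (hP : GoodP P)
    (hg : ∀ s' : Fin 3 → St, Good (look T (keyS s'))) (s : Fin 3 → St) (i : Fin 3) {e : Bool}
    (h : procD T P (keyS s) (look T (keyS s)) (code (s i)) e = true) :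
    D7C T P s i ∨ (code (s i) ≠ 8 ∧ code (s i) ≠ 9 ∧ code (s i) ≠ 10) := by
  rcases d7_procD h with ⟨hc, hv⟩ | ⟨hc, hv⟩ | ⟨hc, hv⟩ | ⟨h8, h9, h10, -⟩
  · exact Or.inl (fun m t hm ht => Or.inl ⟨d7_code8 hc, d7_runL h3 hg s i hc hv hm ht⟩)
  · exact Or.inl (fun m t hm ht => Or.inr (Or.inl ⟨d7_code9 hc,
      d7_runF h3 hP.1 hg s i 9 hc hv hm ht⟩))
  · exact Or.inl (fun m t hm ht => Or.inr (Or.inr (Or.inl ⟨d7_code10 hc,
      d7_runF h3 hP.2.1 hg s i 10 hc hv hm ht⟩)))
  · exact Or.inr ⟨h8, h9, h10⟩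

theorem d7_proc {T : Tr} {P : Lw} (h1 : KLaw) (h3 : KProc) (hP : GoodP P)
    (hc : chkAll T P = true) (s : Fin 3 → St) (hq : ∃ i, (s i).quiet = false) :
    ∃ i, D7C T P s i := by
  have hg := fun s' => d7_good h1 hc s'
  obtain ⟨σ, h01, h12, hσ⟩ := d7_chk hc s
  have h4 := (d7_parts hσ).2.2
  rcases d7_procC_sound h3 hP hg s (σ 0) h4 with h | ⟨a2, a4, a6, h5⟩
  · exact ⟨_, h⟩
  rcases d7_procC_sound h3 hP hg s (σ 1) h5 with h | ⟨b2, b4, b6, h6⟩
  · exact ⟨_, h⟩
  rcases d7_procC_sound h3 hP hg s (σ 2) h6 with h | ⟨c2, c4, c6, h7⟩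
  · exact ⟨_, h⟩
  rcases d7_procD_sound h3 hP hg s (σ 2) h7 with h | ⟨c8, c9, c10⟩
  · exact ⟨_, h⟩
  exfalso
  obtain ⟨i, hi⟩ := hq
  have hle := d7_code_le (s (σ 2))
  have hle7 : code (s (σ 2)) ≤ 7 := by omega
  have q2 : (s (σ 2)).quiet = true := d7_code_quiet c2 c4 c6 c8 c9 c10
  have q1 : (s (σ 1)).quiet = true :=
    d7_code_quiet b2 b4 b6 (by omega) (by omega) (by omega)
  have q0 : (s (σ 0)).quiet = true :=
    d7_code_quiet a2 a4 a6 (by omega) (by omega) (by omega)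
  obtain ⟨j, rfl⟩ := σ.surjective i
  fin_cases j
  · rw [show (s (σ ((fun i ↦ i) (⟨0, by decide⟩ : Fin 3)))).quiet = true from q0] at hi
    exact absurd hi (by decide)
  · rw [show (s (σ ((fun i ↦ i) (⟨1, by decide⟩ : Fin 3)))).quiet = true from q1] at hi
    exact absurd hi (by decide)
  · rw [show (s (σ ((fun i ↦ i) (⟨2, by decide⟩ : Fin 3)))).quiet = true from q2] at hi
    exact absurd hi (by decide)

/-- D7: the table -/
theorem ktab (h1 : KLaw) (h2 : KFrog) (h3 : KProc) : KTab := by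
  intro T P hP hc
  refine ⟨fun s => d7_good h1 hc s, ?_⟩
  exact
    { law := fun s N hN => d7_law (d7_good h1 hc s) hN
      fin := fun s hs m t => d7_fin h1 hc s hs m t
      frog := fun s N hN m t hm ht => d7_frog h1 h2 hc s N hN m t hm ht
      proc := fun s hq => d7_proc h1 h3 hP hc s hq }

end Pool.Agent.H80.T3.K
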