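import Pool.Agent.H80.T3.K.KStm

/-!
# MP_2b43a6_pr, project T3: the table
-/

set_option autoImplicit false

namespace Pool.Agent.H80.T3.K

open Pool.Agent.H92.Frog.K (dg)

/-! ### booleans -/

theorem d7_band {a b : Bool} (h : band a b = true) : a = true ∧ b = true := by
  cases a with
  | false => exact absurd h Bool.false_ne_true
  | true => exact ⟨rfl, h⟩

theorem d7_allN {p : ℕ → Bool} : ∀ {n : ℕ}, allN p n = true → ∀ k < n, p k = true
  | 0, _, k, hk => absurd hk (Nat.not_lt_zero k)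
  | n + 1, h, k, hk => by
    have h' : band (p n) (allN p n) = true := h
    obtain ⟨h1, h2⟩ := d7_band h'
    rcases Nat.lt_succ_iff_lt_or_eq.mp hk with h3 | h3
    · exact d7_allN h2 k h3
    · rw [h3]
      exact h1

theorem d7_brec {x y b : Bool} (h : Bool.rec (motive := fun _ => Bool) x y b = true) :
    (b = true ∧ y = true) ∨ (b = false ∧ x = true) := by
  cases b with
  | false => exact Or.inr ⟨rfl, h⟩
  | true => exact Or.inl ⟨rfl, h⟩

theorem d7_procC {T : Tr} {P : Lw} {K R c : ℕ} {e : Bool} (h : procC T P K R c e = true) :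
    (c = 2 ∧ procV T P.T1 1 (Nat.sub K (w 2)) R = true) ∨
    (c = 4 ∧ procV T P.T2 2 (Nat.sub K (w 4)) R = true) ∨
    (c = 6 ∧ procV T P.T3 3 (Nat.sub K (w 6)) R = true) ∨
    (c ≠ 2 ∧ c ≠ 4 ∧ c ≠ 6 ∧ e = true) := by
  unfold procC at h
  rcases d7_brec h with ⟨h1, h2⟩ | ⟨h1, h2⟩
  · exact Or.inl ⟨Nat.eq_of_beq_eq_true h1, h2⟩
  · rcases d7_brec h2 with ⟨h3, h4⟩ | ⟨h3, h4⟩
    · exact Or.inr (Or.inl ⟨Nat.eq_of_beq_eq_true h3, h4⟩)
    · rcases d7_brec h4 with ⟨h5, h6⟩ | ⟨h5, h6⟩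
      · exact Or.inr (Or.inr (Or.inl ⟨Nat.eq_of_beq_eq_true h5, h6⟩))
      · exact Or.inr (Or.inr (Or.inr ⟨Nat.ne_of_beq_eq_false h1, Nat.ne_of_beq_eq_false h3,
          Nat.ne_of_beq_eq_false h5, h6⟩))

theorem d7_procD {T : Tr} {P : Lw} {K R c : ℕ} {e : Bool} (h : procD T P K R c e = true) :
    (c = 8 ∧ procL T (Nat.sub K (w 8)) R = true) ∨
    (c = 9 ∧ procF T P.F1 (Nat.sub K (w 9)) R = true) ∨
    (c = 10 ∧ procF T P.F2 (Nat.sub K (w 10)) R = true) ∨
    (c ≠ 8 ∧ c ≠ 9 ∧ c ≠ 10 ∧ e = true) := by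
  unfold procD at h
  rcases d7_brec h with ⟨h1, h2⟩ | ⟨h1, h2⟩
  · exact Or.inl ⟨Nat.eq_of_beq_eq_true h1, h2⟩
  · rcases d7_brec h2 with ⟨h3, h4⟩ | ⟨h3, h4⟩
    · exact Or.inr (Or.inl ⟨Nat.eq_of_beq_eq_true h3, h4⟩)
    · rcases d7_brec h4 with ⟨h5, h6⟩ | ⟨h5, h6⟩
      · exact Or.inr (Or.inr (Or.inl ⟨Nat.eq_of_beq_eq_true h5, h6⟩))
      · exact Or.inr (Or.inr (Or.inr ⟨Nat.ne_of_beq_eq_false h1, Nat.ne_of_beq_eq_false h3,
          Nat.ne_of_beq_eq_false h5, h6⟩))

/-! ### codes and keys -/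

theorem d7_w (c : ℕ) : w c = 4 ^ c := rfl

theorem d7_code_le (b : St) : code b ≤ 10 := by cases b <;> decide

theorem d7_digA (b : St) : dig tA (code b) = code b.addA := by cases b <;> decide

theorem d7_is7 (b : St) : is7 (code b) = if b = St.F then 1 else 0 := by cases b <;> decide

theorem d7_dig (t : ℕ) (ht : t < 4) : dig 0x5310 t = code (St.ofT t) := by
  interval_cases t <;> decide

theorem d7_keyS (s : Fin 3 → St) (σ : Equiv.Perm (Fin 3)) :
    Nat.add (w (code (s (σ 0)))) (Nat.add (w (code (s (σ 1)))) (w (code (s (σ 2))))) = keyS s := by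
  have h : keyS s = ∑ i : Fin 3, 4 ^ code (s (σ i)) := by
    unfold keyS
    exact (Equiv.sum_comp σ (fun i => 4 ^ code (s i))).symm
  rw [h, Fin.sum_univ_three, add_assoc]
  rfl

theorem d7_key_update (s : Fin 3 → St) (i : Fin 3) (b : St) :
    Nat.add (Nat.sub (keyS s) (w (code (s i)))) (w (code b)) = keyS (Function.update s i b) := by
  have h : keyS (Function.update s i b) + 4 ^ code (s i) = keyS s + 4 ^ code b := by
    unfold keyS
    rw [Fin.sum_univ_three, Fin.sum_univ_three]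
    fin_cases i
    · simp only [Function.update_apply]
      simp
      ring
    · simp only [Function.update_apply]
      simp
      ring
    · simp only [Function.update_apply]
      simp
      ring
  have h2 : 4 ^ code (s i) ≤ keyS s := by
    unfold keyS
    exact Finset.single_le_sum (f := fun j => 4 ^ code (s j)) (fun _ _ => Nat.zero_le _)
      (Finset.mem_univ i)
  change keyS s - w (code (s i)) + w (code b) = _
  rw [d7_w, d7_w]
  generalize 4 ^ code (s i) = A at *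
  generalize 4 ^ code b = B at *
  generalize keyS (Function.update s i b) = C at *
  generalize keyS s = D at *
  omega

theorem d7_nF (s : Fin 3 → St) (σ : Equiv.Perm (Fin 3)) :
    Nat.add (is7 (code (s (σ 0)))) (Nat.add (is7 (code (s (σ 1)))) (is7 (code (s (σ 2))))) =
      nF s := by
  have h : nF s = ∑ i : Fin 3, (if s (σ i) = St.F then 1 else 0) := by
    unfold nF
    rw [Finset.card_filter]
    exact (Equiv.sum_comp σ (fun i => if s i = St.F then 1 else 0)).symm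
  rw [h, Fin.sum_univ_three, add_assoc, d7_is7, d7_is7, d7_is7]
  rfl

theorem d7_nF_le (s : Fin 3 → St) : nF s ≤ 3 := by
  unfold nF
  exact (Finset.card_filter_le _ _).trans (by simp)

/-- the check of the sorted triple -/
theorem d7_chk {T : Tr} {P : Lw} (hc : chkAll T P = true) (s : Fin 3 → St) :
    ∃ σ : Equiv.Perm (Fin 3), code (s (σ 0)) ≤ code (s (σ 1)) ∧ code (s (σ 1)) ≤ code (s (σ 2)) ∧
      chk T P (code (s (σ 0))) (code (s (σ 1))) (code (s (σ 2))) = true := by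
  have hm := Tuple.monotone_sort (fun i => code (s i))
  have h01 : code (s (Tuple.sort (fun i => code (s i)) 0)) ≤
      code (s (Tuple.sort (fun i => code (s i)) 1)) := hm (by decide)
  have h12 : code (s (Tuple.sort (fun i => code (s i)) 1)) ≤
      code (s (Tuple.sort (fun i => code (s i)) 2)) := hm (by decide)
  refine ⟨Tuple.sort (fun i => code (s i)), h01, h12, ?_⟩
  unfold chkAll at hc
  have h1 := d7_allN hc (code (s (Tuple.sort (fun i => code (s i)) 2)))
    (Nat.lt_succ_of_le (d7_code_le _))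
  have h2 := d7_allN h1 (code (s (Tuple.sort (fun i => code (s i)) 1))) (Nat.lt_succ_of_le h12)
  exact d7_allN h2 (code (s (Tuple.sort (fun i => code (s i)) 0))) (Nat.lt_succ_of_le h01)

/-- the parts of the check -/
theorem d7_parts {T : Tr} {P : Lw} {s : Fin 3 → St} {σ : Equiv.Perm (Fin 3)}
    (h : chk T P (code (s (σ 0))) (code (s (σ 1))) (code (s (σ 2))) = true) :
    lawRow (look T (keyS s)) = true ∧
    frogOK (look T (keyS s)) (look T (keyS (Function.update s (σ 0) (s (σ 0)).addA)))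
      (look T (keyS (Function.update s (σ 1) (s (σ 1)).addA)))
      (look T (keyS (Function.update s (σ 2) (s (σ 2)).addA)))
      (look T (Nat.add (Nat.sub (keyS s) (Nat.mul (Nat.ble 1 (nF s)).toNat (w 7)))
          (Nat.mul (Nat.ble 1 (nF s)).toNat (w 8)))) (nF s) = true ∧
    procC T P (keyS s) (look T (keyS s)) (code (s (σ 0)))
      (procC T P (keyS s) (look T (keyS s)) (code (s (σ 1)))
        (procC T P (keyS s) (look T (keyS s)) (code (s (σ 2)))
          (procD T P (keyS s) (look T (keyS s)) (code (s (σ 2)))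
            (Nat.beq (blk (look T (keyS s)) 0)
              (Nat.shiftLeft (Nat.pow 2 28) (Nat.mul 64 (nF s))))))) = true := by
  unfold chk at h
  beta_reduce at h
  rw [d7_keyS, d7_nF, d7_digA, d7_digA, d7_digA, d7_key_update, d7_key_update,
    d7_key_update] at h
  obtain ⟨h1, h2⟩ := d7_band h
  obtain ⟨h3, h4⟩ := d7_band h2
  exact ⟨h1, h3, h4⟩

/-! ### the rows are good -/

theorem d7_good {T : Tr} {P : Lw} (h1 : KLaw) (hc : chkAll T P = true) (s : Fin 3 → St) :
    Good (look T (keyS s)) := by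
  obtain ⟨σ, -, -, hσ⟩ := d7_chk hc s
  exact h1.2.1 _ (d7_parts hσ).1

theorem d7_reindex (f : ℕ → ℝ) (n : ℕ) :
    ∑ m ∈ Finset.range n, ∑ t ∈ Finset.range 4, f (4 * m + t) = ∑ l ∈ Finset.range (4 * n), f l := by
  induction n with
  | zero => simp
  | succ n ih =>
    rw [Finset.sum_range_succ, ih, show 4 * (n + 1) = 4 * n + 1 + 1 + 1 + 1 by ring,
      Finset.sum_range_succ, Finset.sum_range_succ, Finset.sum_range_succ, Finset.sum_range_succ,
      Finset.sum_range_succ, Finset.sum_range_succ, Finset.sum_range_succ, Finset.sum_range_succ,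
      Finset.sum_range_zero]
    ring_nf

theorem d7_XT (T : Tr) (s : Fin 3 → St) (N : ℕ) {m t : ℕ} (hm : m < 16) (ht : t < 4) :
    XT T s N m t = (dg (look T (keyS s)) (64 * N + (4 * m + t)) : ℝ) / 2 ^ 28 :=
  if_pos ⟨hm, ht⟩

theorem d7_toL (C : ℕ) {m t : ℕ} (hm : m < 16) (ht : t < 4) :
    toL C m t = (dg C (4 * m + t) : ℝ) / 2 ^ 28 :=
  if_pos ⟨hm, ht⟩

theorem d7_XT_nonneg (T : Tr) (s : Fin 3 → St) (N m t : ℕ) : 0 ≤ XT T s N m t := by
  unfold XT
  split_ifs
  · positivity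
  · exact le_rfl

theorem d7_law {T : Tr} {s : Fin 3 → St} (hg : Good (look T (keyS s))) {N : ℕ} (hN : N ≤ 15) :
    IsLaw 15 (XT T s N) := by
  refine ⟨fun m t => d7_XT_nonneg T s N m t, ?_⟩
  have h := hg.2 N (by omega)
  have e : ∑ m ∈ Finset.range (15 + 1), ∑ t ∈ Finset.range 4, XT T s N m t =
      ∑ m ∈ Finset.range 16, ∑ t ∈ Finset.range 4,
        (fun l => (dg (look T (keyS s)) (64 * N + l) : ℝ) / 2 ^ 28) (4 * m + t) := by
    refine Finset.sum_congr rfl (fun m hm => Finset.sum_congr rfl (fun t ht => ?_))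
    exact d7_XT T s N (Finset.mem_range.mp hm) (Finset.mem_range.mp ht)
  rw [e, d7_reindex (fun l => (dg (look T (keyS s)) (64 * N + l) : ℝ) / 2 ^ 28) 16]
  change ∑ l ∈ Finset.range 64, (dg (look T (keyS s)) (64 * N + l) : ℝ) / 2 ^ 28 ≤ 1
  rw [← Finset.sum_div, div_le_one (by positivity)]
  have h' : ((∑ l ∈ Finset.range 64, dg (look T (keyS s)) (64 * N + l) : ℕ) : ℝ) ≤
      ((2 ^ 28 : ℕ) : ℝ) := by exact_mod_cast h
  rw [Nat.cast_sum] at h'
  refine h'.trans ?_
  norm_num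

/-- the lanes of a single entry -/
theorem d7_dg_single (n l : ℕ) : dg (2 ^ 28 * 2 ^ (64 * n)) l ≤ if l = n then 2 ^ 28 else 0 := by
  unfold dg
  rcases lt_trichotomy l n with h | h | h
  · rw [if_neg h.ne]
    obtain ⟨d, rfl⟩ : ∃ d, n = l + 1 + d := ⟨n - (l + 1), by omega⟩
    have e : 2 ^ 28 * 2 ^ (64 * (l + 1 + d)) = (2 ^ 28 * 2 ^ (64 * d) * 2 ^ 64) * 2 ^ (64 * l) := by
      rw [show 64 * (l + 1 + d) = 64 * d + 64 + 64 * l by ring, pow_add, pow_add]
      ring
    rw [e, Nat.mul_div_cancel _ (by positivity), Nat.mul_mod_left]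
  · rw [if_pos h, h, Nat.mul_div_cancel _ (by positivity)]
    exact Nat.mod_le _ _
  · rw [if_neg h.ne']
    obtain ⟨d, rfl⟩ : ∃ d, l = n + 1 + d := ⟨l - (n + 1), by omega⟩
    have e : 2 ^ 28 * 2 ^ (64 * n) < 2 ^ (64 * (n + 1 + d)) := by
      rw [show 64 * (n + 1 + d) = (64 + 64 * d) + 64 * n by ring, pow_add 2 (64 + 64 * d)]
      refine Nat.mul_lt_mul_of_pos_right ?_ (by positivity)
      exact Nat.pow_lt_pow_right (by norm_num) (by omega)
    rw [Nat.div_eq_of_lt e, Nat.zero_mod]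

theorem d7_quiet_code {b : St} (h : b.quiet = true) : code b ≠ 2 ∧ code b ≠ 4 ∧ code b ≠ 6 ∧
    code b ≠ 8 ∧ code b ≠ 9 ∧ code b ≠ 10 := by
  cases b <;> first | (exfalso; exact absurd h (by decide)) | decide

theorem d7_code_quiet {b : St} (h2 : code b ≠ 2) (h4 : code b ≠ 4) (h6 : code b ≠ 6)
    (h8 : code b ≠ 8) (h9 : code b ≠ 9) (h10 : code b ≠ 10) : b.quiet = true := by
  cases b
  · rfl
  · rfl
  · exact absurd rfl h2
  · rfl
  · exact absurd rfl h4
  · rfl
  · exact absurd rfl h6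
  · rfl
  · exact absurd rfl h8
  · exact absurd rfl h9
  · exact absurd rfl h10

theorem d7_fin {T : Tr} {P : Lw} (h1 : KLaw) (hc : chkAll T P = true) (s : Fin 3 → St)
    (hs : ∀ i, (s i).quiet = true) (m t : ℕ) :
    XT T s 0 m t ≤ if m = 0 ∧ t = nF s then 1 else 0 := by
  obtain ⟨σ, -, -, hσ⟩ := d7_chk hc s
  have h3 := (d7_parts hσ).2.2
  have q0 := d7_quiet_code (hs (σ 0))
  have q1 := d7_quiet_code (hs (σ 1))
  have q2 := d7_quiet_code (hs (σ 2))
  have h4 : Nat.beq (blk (look T (keyS s)) 0)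
      (Nat.shiftLeft (Nat.pow 2 28) (Nat.mul 64 (nF s))) = true := by
    rcases d7_procC h3 with ⟨h, -⟩ | ⟨h, -⟩ | ⟨h, -⟩ | ⟨-, -, -, h5⟩
    · exact absurd h q0.1
    · exact absurd h q0.2.1
    · exact absurd h q0.2.2.1
    rcases d7_procC h5 with ⟨h, -⟩ | ⟨h, -⟩ | ⟨h, -⟩ | ⟨-, -, -, h6⟩
    · exact absurd h q1.1
    · exact absurd h q1.2.1
    · exact absurd h q1.2.2.1
    rcases d7_procC h6 with ⟨h, -⟩ | ⟨h, -⟩ | ⟨h, -⟩ | ⟨-, -, -, h7⟩
    · exact absurd h q2.1
    · exact absurd h q2.2.1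
    · exact absurd h q2.2.2.1
    rcases d7_procD h7 with ⟨h, -⟩ | ⟨h, -⟩ | ⟨h, -⟩ | ⟨-, -, -, h8⟩
    · exact absurd h q2.2.2.2.1
    · exact absurd h q2.2.2.2.2.1
    · exact absurd h q2.2.2.2.2.2
    exact h8
  by_cases hmt : m < 16 ∧ t < 4
  · rw [d7_XT T s 0 hmt.1 hmt.2]
    have h5 : dg (look T (keyS s)) (64 * 0 + (4 * m + t)) =
        dg (blk (look T (keyS s)) 0) (4 * m + t) := (h1.2.2.1 _ 0 _ (by omega)).symm
    have h6 : blk (look T (keyS s)) 0 = 2 ^ 28 * 2 ^ (64 * nF s) := by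
      rw [Nat.eq_of_beq_eq_true h4]
      exact Nat.shiftLeft_eq _ _
    rw [h5, h6]
    have h7 := d7_dg_single (nF s) (4 * m + t)
    have hn := d7_nF_le s
    by_cases h8 : 4 * m + t = nF s
    · rw [if_pos h8] at h7
      rw [if_pos (by omega), div_le_one (by positivity)]
      have : ((dg (2 ^ 28 * 2 ^ (64 * nF s)) (4 * m + t) : ℕ) : ℝ) ≤ ((2 ^ 28 : ℕ) : ℝ) := by
        exact_mod_cast h7
      refine this.trans ?_
      norm_num
    · rw [if_neg h8] at h7
      rw [Nat.le_zero.mp h7]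
      simp only [Nat.cast_zero, zero_div]
      split_ifs <;> norm_num
  · unfold XT
    rw [if_neg hmt]
    split_ifs <;> norm_num

end Pool.Agent.H80.T3.K
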