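import Pool.Agent.H80.T3.K.KStm

/-!
# MP_2b43a6_pr, project T3: kernel programs, the program (D8)

The unverified computation of the table is in continuation passing style: whatever it does, when
the final test succeeds there is a table which passes it.
-/

set_option autoImplicit false

namespace Pool.Agent.H80.T3.K

theorem d8_force (x : ℕ) (f : ℕ → Bool) (h : force x f = true) : ∃ n, f n = true := by
  cases x with
  | zero => exact ⟨0, h⟩
  | succ n => exact ⟨n.succ, h⟩

theorem d8_band (a b : Bool) (h : band a b = true) : a = true ∧ b = true := by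
  cases a with
  | false => exact absurd h Bool.false_ne_true
  | true => exact ⟨rfl, h⟩

theorem d8_upd (t : Tr) (key v : ℕ) : ∀ c : Tr → Bool, upd t key v c = true →
    ∃ T, c T = true := by
  induction t with
  | lf x => exact fun c h => ⟨Tr.lf v, h⟩
  | nd k l r ihl ihr =>
    intro c h
    have h' : Bool.rec (motive := fun _ => Bool) (upd r key v (fun r' => c (Tr.nd k l r')))
        (upd l key v (fun l' => c (Tr.nd k l' r))) (Nat.ble key k) = true := h
    cases hb : Nat.ble key k with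
    | false =>
      rw [hb] at h'
      obtain ⟨T, hT⟩ := ihr _ h'
      exact ⟨_, hT⟩
    | true =>
      rw [hb] at h'
      obtain ⟨T, hT⟩ := ihl _ h'
      exact ⟨_, hT⟩

theorem d8_goN (cs ci n : ℕ) : ∀ (E G acc sh : ℕ) (c : ℕ → Bool),
    goN cs ci n E G acc sh c = true → ∃ v, c v = true := by
  induction n with
  | zero => exact fun E G acc sh c h => ⟨acc, h⟩
  | succ n ih =>
    intro E G acc sh c h
    have h' : force (nextE E G cs ci) (fun E' =>
      force (Nat.add acc (Nat.shiftLeft E' sh)) (fun acc' =>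
        goN cs ci n E' (Nat.shiftRight G 4096) acc' (Nat.add sh 4096) c)) = true := h
    obtain ⟨E', h1⟩ := d8_force _ _ h'
    obtain ⟨acc', h2⟩ := d8_force _ _ h1
    exact ih _ _ _ _ _ h2

theorem d8_ins (laws : List ℕ) (i : In) (T : Tr) (c : Tr → Bool) (h : ins laws i T c = true) :
    ∃ T', c T' = true := by
  cases i with
  | q key v => exact d8_upd T key v c h
  | p key kA k3 =>
    unfold ins at h
    dsimp only at h
    obtain ⟨v, h1⟩ := d8_force _ _ h
    exact d8_upd T key v c h1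
  | d key law kx cx l =>
    unfold ins at h
    dsimp only at h
    obtain ⟨v, h1⟩ := d8_force _ _ h
    exact d8_upd T key v c h1
  | r key ks cs nf kL ci =>
    unfold ins at h
    dsimp only at h
    obtain ⟨E0, h1⟩ := d8_force _ _ h
    obtain ⟨G, h2⟩ := d8_force _ _ h1
    obtain ⟨v, h3⟩ := d8_goN _ _ _ _ _ _ _ _ h2
    exact d8_upd T key v c h3

theorem d8_run (laws : List ℕ) (l : List In) : ∀ (T : Tr) (c : Tr → Bool),
    run laws l T c = true → ∃ T', c T' = true := by
  induction l with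
  | nil => exact fun T c h => ⟨T, h⟩
  | cons i l ih =>
    intro T c h
    have h' : ins laws i T (fun T' => run laws l T' c) = true := h
    obtain ⟨T1, h1⟩ := d8_ins _ _ _ _ h'
    exact ih _ _ h1

theorem d8_comp (P : Lw) (c : Tr → Bool) (h : comp P c = true) : ∃ T, c T = true := by
  unfold comp at h
  obtain ⟨T0, h0⟩ := d8_run _ _ _ _ h
  obtain ⟨T1, h1⟩ := d8_run _ _ _ _ h0
  obtain ⟨T2, h2⟩ := d8_run _ _ _ _ h1
  obtain ⟨T3, h3⟩ := d8_run _ _ _ _ h2
  obtain ⟨T4, h4⟩ := d8_run _ _ _ _ h3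
  obtain ⟨T5, h5⟩ := d8_run _ _ _ _ h4
  obtain ⟨T6, h6⟩ := d8_run _ _ _ _ h5
  obtain ⟨T7, h7⟩ := d8_run _ _ _ _ h6
  obtain ⟨T8, h8⟩ := d8_run _ _ _ _ h7
  obtain ⟨T9, h9⟩ := d8_run _ _ _ _ h8
  obtain ⟨T10, h10⟩ := d8_run _ _ _ _ h9
  obtain ⟨T11, h11⟩ := d8_run _ _ _ _ h10
  exact ⟨T11, h11⟩

/-- D8 -/
theorem krun : KRun := by
  intro P Q h
  unfold step at h
  obtain ⟨T, hT⟩ := d8_comp _ _ h
  exact ⟨T, d8_band _ _ hT⟩

end Pool.Agent.H80.T3.K
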