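import Pool.Agent.H80.T3.K.KProg
import Pool.Agent.H80.T3.K.Lv

/-!
# MP_2b43a6_pr, project T3: kernel check of the steps from the heights 1 to 5
-/

set_option autoImplicit false

namespace Pool.Agent.H80.T3.K

theorem s1 : step lw1 lw2 = true := by decide +kernel

theorem s2 : step lw2 lw3 = true := by decide +kernel

theorem s3 : step lw3 lw4 = true := by decide +kernel

theorem s4 : step lw4 lw5 = true := by decide +kernel

theorem s5 : step lw5 lw6 = true := by decide +kernel

end Pool.Agent.H80.T3.K
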