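import Pool.Agent.H80.T3.K.E0

/-!
# MP_2b43a6_pr, project T3: kernel check of the steps from the heights 6 to 10
-/

set_option autoImplicit false

namespace Pool.Agent.H80.T3.K

theorem s6 : step lw6 lw7 = true := by decide +kernel

theorem s7 : step lw7 lw8 = true := by decide +kernel

theorem s8 : step lw8 lw9 = true := by decide +kernel

theorem s9 : step lw9 lw10 = true := by decide +kernel

theorem s10 : step lw10 lw11 = true := by decide +kernel

end Pool.Agent.H80.T3.K
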