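import Pool.Agent.H80.T3.K.E9

/-!
# MP_2b43a6_pr, project T3: kernel check of the steps from the heights 51 to 55
-/

set_option autoImplicit false

namespace Pool.Agent.H80.T3.K

theorem s51 : step lw51 lw52 = true := by decide +kernel

theorem s52 : step lw52 lw53 = true := by decide +kernel

theorem s53 : step lw53 lw54 = true := by decide +kernel

theorem s54 : step lw54 lw55 = true := by decide +kernel

theorem s55 : step lw55 lw56 = true := by decide +kernel

end Pool.Agent.H80.T3.K
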