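import Pool.Agent.H80.T3.K.E10

/-!
# MP_2b43a6_pr, project T3: kernel check of the steps from the heights 56 to 59
-/

set_option autoImplicit false

namespace Pool.Agent.H80.T3.K

theorem s56 : step lw56 lw57 = true := by decide +kernel

theorem s57 : step lw57 lw58 = true := by decide +kernel

theorem s58 : step lw58 lw59 = true := by decide +kernel

theorem s59 : step lw59 lw60 = true := by decide +kernel

end Pool.Agent.H80.T3.K
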