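import Pool.Agent.H80.T3.K.E1

/-!
# MP_2b43a6_pr, project T3: kernel check of the steps from the heights 11 to 15
-/

set_option autoImplicit false

namespace Pool.Agent.H80.T3.K

theorem s11 : step lw11 lw12 = true := by decide +kernel

theorem s12 : step lw12 lw13 = true := by decide +kernel

theorem s13 : step lw13 lw14 = true := by decide +kernel

theorem s14 : step lw14 lw15 = true := by decide +kernel

theorem s15 : step lw15 lw16 = true := by decide +kernel

end Pool.Agent.H80.T3.K
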