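import Pool.Agent.H80.T3.K.E2

/-!
# MP_2b43a6_pr, project T3: kernel check of the steps from the heights 16 to 20
-/

set_option autoImplicit false

namespace Pool.Agent.H80.T3.K

theorem s16 : step lw16 lw17 = true := by decide +kernel

theorem s17 : step lw17 lw18 = true := by decide +kernel

theorem s18 : step lw18 lw19 = true := by decide +kernel

theorem s19 : step lw19 lw20 = true := by decide +kernel

theorem s20 : step lw20 lw21 = true := by decide +kernel

end Pool.Agent.H80.T3.K
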