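import Pool.Agent.H80.T3.K.E3

/-!
# MP_2b43a6_pr, project T3: kernel check of the steps from the heights 21 to 25
-/

set_option autoImplicit false

namespace Pool.Agent.H80.T3.K

theorem s21 : step lw21 lw22 = true := by decide +kernel

theorem s22 : step lw22 lw23 = true := by decide +kernel

theorem s23 : step lw23 lw24 = true := by decide +kernel

theorem s24 : step lw24 lw25 = true := by decide +kernel

theorem s25 : step lw25 lw26 = true := by decide +kernel

end Pool.Agent.H80.T3.K
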