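import Pool.Agent.H80.T3.K.E4

/-!
# MP_2b43a6_pr, project T3: kernel check of the steps from the heights 26 to 30
-/

set_option autoImplicit false

namespace Pool.Agent.H80.T3.K

theorem s26 : step lw26 lw27 = true := by decide +kernel

theorem s27 : step lw27 lw28 = true := by decide +kernel

theorem s28 : step lw28 lw29 = true := by decide +kernel

theorem s29 : step lw29 lw30 = true := by decide +kernel

theorem s30 : step lw30 lw31 = true := by decide +kernel

end Pool.Agent.H80.T3.K
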