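import Pool.Agent.H80.T3.K.E5

/-!
# MP_2b43a6_pr, project T3: kernel check of the steps from the heights 31 to 35
-/

set_option autoImplicit false

namespace Pool.Agent.H80.T3.K

theorem s31 : step lw31 lw32 = true := by decide +kernel

theorem s32 : step lw32 lw33 = true := by decide +kernel

theorem s33 : step lw33 lw34 = true := by decide +kernel

theorem s34 : step lw34 lw35 = true := by decide +kernel

theorem s35 : step lw35 lw36 = true := by decide +kernel

end Pool.Agent.H80.T3.K
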