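import Pool.Agent.H80.T3.K.E6

/-!
# MP_2b43a6_pr, project T3: kernel check of the steps from the heights 36 to 40
-/

set_option autoImplicit false

namespace Pool.Agent.H80.T3.K

theorem s36 : step lw36 lw37 = true := by decide +kernel

theorem s37 : step lw37 lw38 = true := by decide +kernel

theorem s38 : step lw38 lw39 = true := by decide +kernel

theorem s39 : step lw39 lw40 = true := by decide +kernel

theorem s40 : step lw40 lw41 = true := by decide +kernel

end Pool.Agent.H80.T3.K
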