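import Pool.Agent.H80.T3.K.E7

/-!
# MP_2b43a6_pr, project T3: kernel check of the steps from the heights 41 to 45
-/

set_option autoImplicit false

namespace Pool.Agent.H80.T3.K

theorem s41 : step lw41 lw42 = true := by decide +kernel

theorem s42 : step lw42 lw43 = true := by decide +kernel

theorem s43 : step lw43 lw44 = true := by decide +kernel

theorem s44 : step lw44 lw45 = true := by decide +kernel

theorem s45 : step lw45 lw46 = true := by decide +kernel

end Pool.Agent.H80.T3.K
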