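import Pool.Agent.H80.T3.K.E8

/-!
# MP_2b43a6_pr, project T3: kernel check of the steps from the heights 46 to 50
-/

set_option autoImplicit false

namespace Pool.Agent.H80.T3.K

theorem s46 : step lw46 lw47 = true := by decide +kernel

theorem s47 : step lw47 lw48 = true := by decide +kernel

theorem s48 : step lw48 lw49 = true := by decide +kernel

theorem s49 : step lw49 lw50 = true := by decide +kernel

theorem s50 : step lw50 lw51 = true := by decide +kernel

end Pool.Agent.H80.T3.K
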