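import Pool.Agent.H80.T3.FinA
import Pool.Agent.H80.T3.P0
import Pool.Agent.H80.T3.K.D1
import Pool.Agent.H80.T3.K.D2
import Pool.Agent.H80.T3.K.D4
import Pool.Agent.H80.T3.K.D6
import Pool.Agent.H80.T3.K.D7
import Pool.Agent.H80.T3.K.D8
import Pool.Agent.H80.T3.K.E11

/-!
# MP_2b43a6_pr, project T3: the first phase
-/

set_option autoImplicit false

namespace Pool.Agent.H80.T3.K

open Pool.Agent.H92.Frog.K (dg)

/-- one level -/
theorem fk_step (hN : SNext) (kp : KProc) (ks : KSt) {P Q : Lw} {h : ℕ} (hh : 1 ≤ h)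
    (hs : step P Q = true) (hP : GoodP P ∧ Lev 15 h (lawsK P)) :
    GoodP Q ∧ Lev 15 (h + 1) (lawsK Q) := by
  obtain ⟨T, h1, h2⟩ := krun P Q hs
  obtain ⟨hg, ht⟩ := ktab klaw kfrog kp T P hP.1 h1
  obtain ⟨hq, hn⟩ := knxt (knx klaw) ks T Q hg h2
  exact ⟨hq, hN 15 h _ _ _ (by norm_num) hh hP.2 ht hn⟩

theorem fk_claim (hex : SEx) {M h : ℕ} {x : ℝ} (hx0 : 0 ≤ x) (hx1 : x ≤ 1) {v : T}
    {Z : Finset T} {A : Multiset T} {val : ℝ} {L L' : ℕ → ℕ → ℝ} (hL : ∀ m t, L' m t ≤ L m t)
    (hc : Claim M x h v Z A val L) : Claim M x h v Z A val L' := by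
  unfold Claim at hc ⊢
  refine le_trans ?_ hc
  refine Finset.sum_le_sum fun m _ => Finset.sum_le_sum fun t _ => ?_
  have h1 : Ex x h v Z A m t ≤ Ex x h v Z A 0 0 :=
    hex x hx0 hx1 h v Z A 0 m 0 t (Nat.zero_le _) (Nat.zero_le _)
  exact mul_le_mul_of_nonneg_right (hL m t) (by linarith)

theorem fk_mono (hex : SEx) {M h : ℕ} {P P' : Laws} (hP : Lev M h P) (l1 : IsLaw M P'.F1)
    (l2 : IsLaw M P'.F2) (lt : ∀ t, IsLaw M (P'.Tl t)) (e1 : ∀ m t, P'.F1 m t ≤ P.F1 m t)
    (e2 : ∀ m t, P'.F2 m t ≤ P.F2 m t) (et : ∀ k m t, P'.Tl k m t ≤ P.Tl k m t) :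
    Lev M h P' :=
  ⟨l1, l2, lt, fun x hx0 hx1 v Z A hv hE => fk_claim hex hx0 hx1 e1 (hP.f1 x hx0 hx1 v Z A hv hE),
    fun x hx0 hx1 v Z A hv hE => fk_claim hex hx0 hx1 e2 (hP.f2 x hx0 hx1 v Z A hv hE),
    fun t h1 h3 x hx0 hx1 v Z A hv hE => fk_claim hex hx0 hx1 (et t)
      (hP.tl t h1 h3 x hx0 hx1 v Z A hv hE)⟩

theorem fk_d1 : ∀ l < 64, dg lw1.F1 l = if l = 3 then 178956970 else if l = 7 then 89478485
    else 0 := by
  decide +kernel

theorem fk_d2 : ∀ l < 64, dg lw1.F2 l = if l = 3 then 178956970 else if l = 7 then 89478485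
    else 0 := by
  decide +kernel

theorem fk_t1 : ∀ l < 64, dg lw1.T1 l = if l = 1 then 2 ^ 28 else 0 := by
  decide +kernel

theorem fk_t2 : ∀ l < 64, dg lw1.T2 l = if l = 2 then 2 ^ 28 else 0 := by
  decide +kernel

theorem fk_t3 : ∀ l < 64, dg lw1.T3 l = if l = 3 then 2 ^ 28 else 0 := by
  decide +kernel

theorem fk_good1 : GoodP lw1 := by
  refine ⟨isLaw_sound ?_, isLaw_sound ?_, isLaw_sound ?_, isLaw_sound ?_, isLaw_sound ?_⟩ <;>
    decide +kernel

theorem fk_toLF (C : ℕ) (h : ∀ l < 64, dg C l = if l = 3 then 178956970 else if l = 7 then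
    89478485 else 0) (m t : ℕ) : toL C m t ≤
      if m = 1 ∧ t = 3 then 1 / 3 else if m = 0 ∧ t = 3 then 2 / 3 else 0 := by
  unfold toL
  split_ifs with h1 h2 h3 h3 h4
  · rw [h2.1, h2.2, h _ (by norm_num)]
    norm_num
  · rw [h3.1, h3.2, h _ (by norm_num)]
    norm_num
  · rw [h _ (by omega), if_neg (by omega), if_neg (by omega)]
    norm_num
  · norm_num
  · norm_num
  · norm_num

theorem fk_toLT (C k : ℕ) (hk : k < 4) (h : ∀ l < 64, dg C l = if l = k then 2 ^ 28 else 0)
    (m t : ℕ) : toL C m t ≤ if m = 0 ∧ t = k then 1 else 0 := by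
  unfold toL
  split_ifs with h1 h2 h3
  · rw [h2.1, h2.2, h _ (by omega), if_pos (by omega)]
    norm_num
  · rw [h _ (by omega), if_neg (by omega)]
    norm_num
  · norm_num
  · norm_num

theorem fk_toL0 (k m t : ℕ) : toL 0 m t ≤ if m = 0 ∧ t = k then 1 else 0 := by
  have h0 : toL 0 m t = 0 := by
    unfold toL dg
    split_ifs
    · simp
    · rfl
  rw [h0]
  split_ifs <;> norm_num

/-- height one -/
theorem fk_base (hex : SEx) (h1 : SLev1) : GoodP lw1 ∧ Lev 15 1 (lawsK lw1) := by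
  refine ⟨fk_good1, fk_mono hex (h1 15 (by norm_num)) (d6_law _ fk_good1.1.2)
    (d6_law _ fk_good1.2.1.2) ?_ (fk_toLF _ fk_d1) (fk_toLF _ fk_d2) ?_⟩
  · intro k
    show IsLaw 15 (toL _)
    split_ifs
    · exact d6_law _ fk_good1.2.2.1.2
    · exact d6_law _ fk_good1.2.2.2.1.2
    · exact d6_law _ fk_good1.2.2.2.2.2
    · exact d6_law0
  · intro k m t
    show toL (if k = 1 then lw1.T1 else if k = 2 then lw1.T2 else if k = 3 then lw1.T3 else 0)
      m t ≤ if m = 0 ∧ t = k then 1 else 0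
    by_cases a1 : k = 1
    · subst a1
      exact fk_toLT _ 1 (by norm_num) fk_t1 m t
    · rw [if_neg a1]
      by_cases a2 : k = 2
      · subst a2
        exact fk_toLT _ 2 (by norm_num) fk_t2 m t
      · rw [if_neg a2]
        by_cases a3 : k = 3
        · subst a3
          exact fk_toLT _ 3 (by norm_num) fk_t3 m t
        · rw [if_neg a3]
          exact fk_toL0 k m t

theorem fk_chain (hN : SNext) (kp : KProc) (ks : KSt) (hex : SEx) (hl : SLev1) :
    Lev 15 60 (lawsK lw60) ∧ GoodP lw60 := by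
  have e1 := fk_base hex hl
  have e2 := fk_step hN kp ks (by norm_num) s1 e1
  have e3 := fk_step hN kp ks (by norm_num) s2 e2
  have e4 := fk_step hN kp ks (by norm_num) s3 e3
  have e5 := fk_step hN kp ks (by norm_num) s4 e4
  have e6 := fk_step hN kp ks (by norm_num) s5 e5
  have e7 := fk_step hN kp ks (by norm_num) s6 e6
  have e8 := fk_step hN kp ks (by norm_num) s7 e7
  have e9 := fk_step hN kp ks (by norm_num) s8 e8
  have e10 := fk_step hN kp ks (by norm_num) s9 e9
  have e11 := fk_step hN kp ks (by norm_num) s10 e10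
  have e12 := fk_step hN kp ks (by norm_num) s11 e11
  have e13 := fk_step hN kp ks (by norm_num) s12 e12
  have e14 := fk_step hN kp ks (by norm_num) s13 e13
  have e15 := fk_step hN kp ks (by norm_num) s14 e14
  have e16 := fk_step hN kp ks (by norm_num) s15 e15
  have e17 := fk_step hN kp ks (by norm_num) s16 e16
  have e18 := fk_step hN kp ks (by norm_num) s17 e17
  have e19 := fk_step hN kp ks (by norm_num) s18 e18
  have e20 := fk_step hN kp ks (by norm_num) s19 e19
  have e21 := fk_step hN kp ks (by norm_num) s20 e20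
  have e22 := fk_step hN kp ks (by norm_num) s21 e21
  have e23 := fk_step hN kp ks (by norm_num) s22 e22
  have e24 := fk_step hN kp ks (by norm_num) s23 e23
  have e25 := fk_step hN kp ks (by norm_num) s24 e24
  have e26 := fk_step hN kp ks (by norm_num) s25 e25
  have e27 := fk_step hN kp ks (by norm_num) s26 e26
  have e28 := fk_step hN kp ks (by norm_num) s27 e27
  have e29 := fk_step hN kp ks (by norm_num) s28 e28
  have e30 := fk_step hN kp ks (by norm_num) s29 e29
  have e31 := fk_step hN kp ks (by norm_num) s30 e30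
  have e32 := fk_step hN kp ks (by norm_num) s31 e31
  have e33 := fk_step hN kp ks (by norm_num) s32 e32
  have e34 := fk_step hN kp ks (by norm_num) s33 e33
  have e35 := fk_step hN kp ks (by norm_num) s34 e34
  have e36 := fk_step hN kp ks (by norm_num) s35 e35
  have e37 := fk_step hN kp ks (by norm_num) s36 e36
  have e38 := fk_step hN kp ks (by norm_num) s37 e37
  have e39 := fk_step hN kp ks (by norm_num) s38 e38
  have e40 := fk_step hN kp ks (by norm_num) s39 e39
  have e41 := fk_step hN kp ks (by norm_num) s40 e40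
  have e42 := fk_step hN kp ks (by norm_num) s41 e41
  have e43 := fk_step hN kp ks (by norm_num) s42 e42
  have e44 := fk_step hN kp ks (by norm_num) s43 e43
  have e45 := fk_step hN kp ks (by norm_num) s44 e44
  have e46 := fk_step hN kp ks (by norm_num) s45 e45
  have e47 := fk_step hN kp ks (by norm_num) s46 e46
  have e48 := fk_step hN kp ks (by norm_num) s47 e47
  have e49 := fk_step hN kp ks (by norm_num) s48 e48
  have e50 := fk_step hN kp ks (by norm_num) s49 e49
  have e51 := fk_step hN kp ks (by norm_num) s50 e50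
  have e52 := fk_step hN kp ks (by norm_num) s51 e51
  have e53 := fk_step hN kp ks (by norm_num) s52 e52
  have e54 := fk_step hN kp ks (by norm_num) s53 e53
  have e55 := fk_step hN kp ks (by norm_num) s54 e54
  have e56 := fk_step hN kp ks (by norm_num) s55 e55
  have e57 := fk_step hN kp ks (by norm_num) s56 e56
  have e58 := fk_step hN kp ks (by norm_num) s57 e57
  have e59 := fk_step hN kp ks (by norm_num) s58 e58
  have e60 := fk_step hN kp ks (by norm_num) s59 e59
  exact ⟨e60.2, e60.1⟩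

end Pool.Agent.H80.T3.K
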