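/-!
# MP_2b43a6_pr, project T3: kernel programs, definitions

Laws are packed in 64 lanes of 64 bits, lane `4 m + t`, scale `2 ^ 28`. The row of a state packs
the laws for `N = 0, ..., 15` (blocks of 4096 bits). `chk` is verified, `comp` (which computes the
table) is not.
-/

set_option autoImplicit false

namespace Pool.Agent.H80.T3.K

/-- search tree with natural number keys -/
inductive Tr where
  | nd (k : Nat) (l r : Tr) : Tr
  | lf (v : Nat) : Tr

/-- the entry with the given key -/
noncomputable def look (t : Tr) (key : Nat) : Nat :=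
  Tr.rec (motive := fun _ => Nat) (fun k _ _ ihl ihr => Bool.rec ihr ihl (Nat.ble key k))
    (fun v => v) t

/-- conjunction, lazy in the second argument -/
noncomputable def band (a b : Bool) : Bool := Bool.rec false b a

/-- `p (n - 1) ∧ … ∧ p 0` -/
noncomputable def allN (p : Nat → Bool) (n : Nat) : Bool :=
  Nat.rec (motive := fun _ => Bool) true (fun k ih => band (p k) ih) n

/-- the constant `c` in `n` lanes -/
def rep (n c : Nat) : Nat :=
  Nat.mul c (Nat.div (Nat.sub (Nat.pow 2 (Nat.mul 64 n)) 1) (Nat.sub (Nat.pow 2 64) 1))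

/-- one lane -/
def M64 : Nat := Nat.sub (Nat.pow 2 64) 1

/-- one block -/
def MW : Nat := Nat.sub (Nat.pow 2 4096) 1

/-- fifteen blocks -/
def MR : Nat := Nat.sub (Nat.pow 2 61440) 1

/-- 29 bits in each lane of a row -/
def MK : Nat := rep 1024 (Nat.sub (Nat.pow 2 29) 1)

/-- 29 bits in each lane of a block -/
def MKE : Nat := rep 64 (Nat.sub (Nat.pow 2 29) 1)

/-- the top four lanes of each block -/
def TOP : Nat := Nat.mul (Nat.sub (Nat.pow 2 4096) (Nat.pow 2 3840))
  (Nat.div (Nat.sub (Nat.pow 2 65536) 1) (Nat.sub (Nat.pow 2 4096) 1))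

/-- the top bit of each lane -/
def B960 : Nat := rep 960 (Nat.pow 2 63)

/-- the top bit of each lane -/
def B64 : Nat := rep 64 (Nat.pow 2 63)

/-- lanewise comparison `Y ≤ X` -/
def gek (BI X Y : Nat) : Bool := Nat.beq (Nat.land (Nat.sub (Nat.add X BI) Y) BI) BI

/-- block `N` of a row -/
def blk (R N : Nat) : Nat := Nat.land (Nat.shiftRight R (Nat.mul 4096 N)) MW

/-- a law: lanes of 29 bits, total at most `2 ^ 28` -/
noncomputable def isLaw (E : Nat) : Bool :=
  band (Nat.beq (Nat.land E MKE) E) (Nat.ble (Nat.mod E M64) (Nat.pow 2 28))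

/-- the laws of a row -/
noncomputable def lawRow (R : Nat) : Bool :=
  band (Nat.beq (Nat.land R MK) R)
    (allN (fun N => Nat.ble (Nat.mod (blk R N) M64) (Nat.pow 2 28)) 16)

/-- weight of a code in the key -/
def w (c : Nat) : Nat := Nat.pow 4 c

/-- table of digits -/
def dig (T c : Nat) : Nat := Nat.land (Nat.shiftRight T (Nat.mul 4 c)) 15

/-- codes after one more absorbed run: 0,2,2,4,4,6,6,9,9,10,10 -/
def tA : Nat := 0xaa996644220

/-- shifted row (all blocks) -/
def shR (R : Nat) : Nat :=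
  Nat.add (Nat.shiftLeft (Nat.sub R (Nat.land R TOP)) 256) (Nat.land R TOP)

/-- the rule for a frog at `v`, all `N` -/
def frogOK (R RA0 RA1 RA2 RL nf : Nat) : Bool :=
  gek B960 (Nat.add (Nat.land (Nat.add (Nat.mul 3 (shR R))
      (Nat.mul 2 (Nat.add RA0 (Nat.add RA1 RA2)))) MR) (Nat.mul nf (Nat.shiftRight RL 4096)))
    (Nat.mul (Nat.add 9 nf) (Nat.shiftRight R 4096))

/-- sum of the blocks with the coefficients in the lanes `0, 4, 8, ...` of `C` -/
noncomputable def dot (C R : Nat) : Nat :=
  Nat.rec (motive := fun _ => Nat) 0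
    (fun k ih => Nat.add ih (Nat.mul (Nat.land (Nat.shiftRight C (Nat.mul 256 k)) M64)
      (blk R k))) 16

/-- laws of a level -/
structure Lw where
  F1 : Nat
  F2 : Nat
  T1 : Nat
  T2 : Nat
  T3 : Nat

/-- key of the child status with `t` fresh children -/
def wT (t : Nat) : Nat := w (dig 0x5310 t)

/-- sum over the types `t < k` -/
noncomputable def dots (T : Tr) (C K' : Nat) (k : Nat) : Nat :=
  Nat.rec (motive := fun _ => Nat) 0
    (fun t ih => Nat.add ih (dot (Nat.shiftRight C (Nat.mul 64 t)) (look T (Nat.add K' (wT t))))) k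

/-- a pending run into a fresh child -/
noncomputable def procF (T : Tr) (C K' R : Nat) : Bool :=
  gek B64 (dots T C K' 4) (Nat.mul (Nat.pow 2 28) (blk R 0))

/-- a pending run into a child with `k` fresh children -/
noncomputable def procV (T : Tr) (C k K' R : Nat) : Bool :=
  gek B64 (Nat.add (Nat.mul (Nat.land (Nat.shiftRight C (Nat.mul 64 k)) M64)
    (blk (look T (Nat.add K' (wT k))) 0)) (dots T C K' k)) (Nat.mul (Nat.pow 2 28) (blk R 0))

/-- a woken top -/
noncomputable def procL (T : Tr) (K' R : Nat) : Bool :=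
  gek B64 (Nat.add (Nat.mul 2 (blk (look T (Nat.add K' (w 6))) 0))
    (blk (look T (Nat.add K' (w 5))) 1)) (Nat.mul 3 (blk R 0))

/-- processing a child with code `c`; `e` otherwise -/
noncomputable def procC (T : Tr) (P : Lw) (K R c : Nat) (e : Bool) : Bool :=
  Bool.rec (Bool.rec (Bool.rec e
    (procV T P.T3 3 (Nat.sub K (w 6)) R) (Nat.beq c 6))
    (procV T P.T2 2 (Nat.sub K (w 4)) R) (Nat.beq c 4))
    (procV T P.T1 1 (Nat.sub K (w 2)) R) (Nat.beq c 2)

/-- processing the last child -/
noncomputable def procD (T : Tr) (P : Lw) (K R c : Nat) (e : Bool) : Bool :=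
  Bool.rec (Bool.rec (Bool.rec e
    (procF T P.F2 (Nat.sub K (w 10)) R) (Nat.beq c 10))
    (procF T P.F1 (Nat.sub K (w 9)) R) (Nat.beq c 9))
    (procL T (Nat.sub K (w 8)) R) (Nat.beq c 8)

/-- 1 for the code 7 -/
def is7 (c : Nat) : Nat := dig 0x10000000 c

/-- the local conditions for the state with the codes `a ≤ b ≤ c` -/
noncomputable def chk (T : Tr) (P : Lw) (a b c : Nat) : Bool :=
  (fun K => (fun R => (fun nf =>
    band (lawRow R) (band (frogOK R
        (look T (Nat.add (Nat.sub K (w a)) (w (dig tA a))))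
        (look T (Nat.add (Nat.sub K (w b)) (w (dig tA b))))
        (look T (Nat.add (Nat.sub K (w c)) (w (dig tA c))))
        (look T (Nat.add (Nat.sub K (Nat.mul (Nat.ble 1 nf).toNat (w 7)))
          (Nat.mul (Nat.ble 1 nf).toNat (w 8)))) nf)
      (procC T P K R a (procC T P K R b (procC T P K R c (procD T P K R c
        (Nat.beq (blk R 0) (Nat.shiftLeft (Nat.pow 2 28) (Nat.mul 64 nf)))))))))
    (Nat.add (is7 a) (Nat.add (is7 b) (is7 c))))
    (look T K)) (Nat.add (w a) (Nat.add (w b) (w c)))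

/-- all states -/
noncomputable def chkAll (T : Tr) (P : Lw) : Bool :=
  allN (fun c => allN (fun b => allN (fun a => chk T P a b c) (Nat.add b 1)) (Nat.add c 1)) 11

/-- block `N` of the state with the codes `a`, `b`, `c` -/
noncomputable def ent (T : Tr) (a b c N : Nat) : Nat :=
  blk (look T (Nat.add (w a) (Nat.add (w b) (w c)))) N

/-- the laws of the next level are bounded by the table -/
noncomputable def chkN (T : Tr) (Q : Lw) : Bool :=
  band (band (isLaw Q.F1) (band (isLaw Q.F2) (band (isLaw Q.T1) (band (isLaw Q.T2) (isLaw Q.T3)))))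
  (band (gek B64 (Nat.add (Nat.pow 2 62) (Nat.add (Nat.mul 540 (ent T 7 7 9 1))
      (Nat.add (Nat.mul 108 (ent T 7 8 9 1)) (Nat.mul 12 (ent T 8 8 9 1))))) (Nat.mul 660 Q.F1))
  (band (gek B64 (Nat.add (Nat.pow 2 62) (Nat.add (Nat.mul 97200 (ent T 7 7 10 1))
      (Nat.add (Nat.mul 40824 (ent T 7 8 10 1)) (Nat.add (Nat.mul 235224 (ent T 7 9 9 1))
      (Nat.add (Nat.mul 7176 (ent T 8 8 10 1)) (Nat.mul 55176 (ent T 8 9 9 1)))))))
      (Nat.mul 435600 Q.F2))
  (band (gek B64 (Nat.add (Nat.pow 2 62) (Nat.add (Nat.mul 396 (ent T 0 0 7 0))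
      (Nat.add (Nat.mul 44 (ent T 0 0 8 0)) (Nat.mul 220 (ent T 0 0 9 0))))) (Nat.mul 660 Q.T1))
  (band (gek B64 (Nat.add (Nat.pow 2 62) (Nat.add (Nat.mul 180 (ent T 0 7 7 0))
      (Nat.add (Nat.mul 36 (ent T 0 7 8 0)) (Nat.add (Nat.mul 396 (ent T 0 7 9 0))
      (Nat.add (Nat.mul 4 (ent T 0 8 8 0)) (Nat.mul 44 (ent T 0 8 9 0)))))))
      (Nat.mul 660 Q.T2))
  (gek B64 (Nat.add (Nat.pow 2 62) (Nat.add (Nat.mul 540 (ent T 7 7 9 0))
      (Nat.add (Nat.mul 108 (ent T 7 8 9 0)) (Nat.mul 12 (ent T 8 8 9 0))))) (Nat.mul 660 Q.T3))))))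

/-! ### computation of the table (not verified) -/

/-- evaluate a number first -/
noncomputable def force (x : Nat) (f : Nat → Bool) : Bool :=
  Nat.rec (motive := fun _ => Bool) (f 0) (fun n _ => f (Nat.succ n)) x

/-- change an entry -/
noncomputable def upd (t : Tr) (key v : Nat) : (Tr → Bool) → Bool :=
  Tr.rec (motive := fun _ => (Tr → Bool) → Bool)
    (fun k l r ihl ihr c => Bool.rec (ihr (fun r' => c (Tr.nd k l r')))
      (ihl (fun l' => c (Tr.nd k l' r))) (Nat.ble key k))
    (fun _ c => c (Tr.lf v)) t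

/-- instructions -/
inductive In where
  | q (key v : Nat) : In
  | p (key kA k3 : Nat) : In
  | d (key law kx cx : Nat) (l : List (Nat × Nat)) : In
  | r (key : Nat) (ks : List Nat) (cs nf kL ci : Nat) : In

/-- entry of a list of numbers -/
noncomputable def nthN (l : List Nat) : Nat → Nat :=
  List.rec (motive := fun _ => Nat → Nat) (fun _ => 0)
    (fun a _ ih i => Nat.rec (motive := fun _ => Nat) a (fun j _ => ih j) i) l

/-- mask of 36 bits -/
def M36 : Nat := rep 64 (Nat.sub (Nat.pow 2 36) 1)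

/-- mask of 34 bits -/
def M34 : Nat := rep 64 (Nat.sub (Nat.pow 2 34) 1)

/-- one step of the recursion in `N` -/
def nextE (E G cs ci : Nat) : Nat :=
  Nat.land (Nat.shiftRight (Nat.mul ci (Nat.add (Nat.mul 3 (Nat.add
    (Nat.land (Nat.shiftLeft E 256) MW) (Nat.shiftLeft (Nat.shiftRight E 3840) 3840)))
    (Nat.add (Nat.mul cs E) (Nat.land G MW)))) 30) M34

/-- the recursion in `N` -/
noncomputable def goN (cs ci n : Nat) : (E G acc sh : Nat) → (Nat → Bool) → Bool :=
  Nat.rec (motive := fun _ => (E G acc sh : Nat) → (Nat → Bool) → Bool)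
    (fun _ _ acc _ c => c acc)
    (fun _ ih E G acc sh c => force (nextE E G cs ci) (fun E' =>
      force (Nat.add acc (Nat.shiftLeft E' sh)) (fun acc' =>
        ih E' (Nat.shiftRight G 4096) acc' (Nat.add sh 4096) c))) n

/-- one instruction -/
noncomputable def ins (laws : List Nat) (i : In) (T : Tr) (c : Tr → Bool) : Bool :=
  In.rec (motive := fun _ => Bool)
    (fun key v => upd T key v c)
    (fun key kA k3 => force (Nat.land (Nat.shiftRight (Nat.mul 357913941
      (Nat.add (Nat.mul 2 (blk (look T kA) 0)) (blk (look T k3) 1))) 30) M34)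
      (fun v => upd T key v c))
    (fun key law kx cx l => (fun C => force (Nat.land (Nat.shiftRight
      (List.rec (motive := fun _ => Nat)
        (Nat.mul (Nat.land (Nat.shiftRight C cx) M64) (blk (look T kx) 0))
        (fun p _ ih => Nat.add ih (dot (Nat.shiftRight C p.1) (look T p.2))) l) 28) M36)
      (fun v => upd T key v c)) (nthN laws law))
    (fun key ks cs nf kL ci => force (look T key) (fun E0 =>
      force (Nat.add (Nat.mul nf (Nat.shiftRight (look T kL) 4096))
        (Nat.mul 2 (List.rec (motive := fun _ => Nat) 0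
          (fun k _ ih => Nat.add ih (look T k)) ks))) (fun G =>
        goN cs ci 15 E0 G E0 4096 (fun v => upd T key v c)))) i

/-- run a program -/
noncomputable def run (laws : List Nat) (l : List In) : Tr → (Tr → Bool) → Bool :=
  List.rec (motive := fun _ => Tr → (Tr → Bool) → Bool) (fun T c => c T)
    (fun i _ ih T c => ins laws i T (fun T' => ih T' c)) l

end Pool.Agent.H80.T3.K
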