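import Pool.Agent.H80.T3.Stm
import Pool.Agent.H80.T3.K.KProg
import Pool.Agent.H92.Frog.Pack

/-!
# MP_2b43a6_pr, project T3: kernel programs, meaning (statements)

`dg X l` is lane `l` of `X` (`X / 2 ^ (64 l) % 2 ^ 64`).
-/

set_option autoImplicit false

namespace Pool.Agent.H80.T3.K

open Pool.Agent.H92.Frog.K (dg)

/-- the code of a status -/
def code : St → ℕ
  | St.D => 0
  | St.V1 => 1
  | St.V1A => 2
  | St.V2 => 3
  | St.V2A => 4
  | St.V3 => 5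
  | St.V3A => 6
  | St.F => 7
  | St.FL => 8
  | St.FA => 9
  | St.FAA => 10

/-- the key of a state -/
def keyS (s : Fin 3 → St) : ℕ := ∑ i : Fin 3, 4 ^ code (s i)

/-- the table of the tree `T` -/
noncomputable def XT (T : Tr) (s : Fin 3 → St) (N m t : ℕ) : ℝ :=
  if m < 16 ∧ t < 4 then (dg (look T (keyS s)) (64 * N + (4 * m + t)) : ℝ) / 2 ^ 28 else 0

/-- the law packed in `C` -/
noncomputable def toL (C : ℕ) (m t : ℕ) : ℝ :=
  if m < 16 ∧ t < 4 then (dg C (4 * m + t) : ℝ) / 2 ^ 28 else 0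

/-- packed laws -/
noncomputable def lawsK (P : Lw) : Laws where
  F1 := toL P.F1
  F2 := toL P.F2
  Tl k := toL (if k = 1 then P.T1 else if k = 2 then P.T2 else if k = 3 then P.T3 else 0)

/-- a packed law -/
def GoodE (E : ℕ) : Prop := E < 2 ^ 4096 ∧ ∑ l ∈ Finset.range 64, dg E l ≤ 2 ^ 28

/-- a packed row of laws -/
def Good (R : ℕ) : Prop := R < 2 ^ 65536 ∧
  ∀ N < 16, ∑ l ∈ Finset.range 64, dg R (64 * N + l) ≤ 2 ^ 28

/-- the laws are good -/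
def GoodP (P : Lw) : Prop := GoodE P.F1 ∧ GoodE P.F2 ∧ GoodE P.T1 ∧ GoodE P.T2 ∧ GoodE P.T3

/-- D1: laws and blocks -/
def KLaw : Prop := (∀ E, isLaw E = true → GoodE E) ∧ (∀ R, lawRow R = true → Good R) ∧
  (∀ R N l, l < 64 → dg (blk R N) l = dg R (64 * N + l)) ∧ ∀ R N, blk R N < 2 ^ 4096

/-- D2: the rule for frogs -/
def KFrog : Prop := ∀ R A0 A1 A2 L nf : ℕ, Good R → Good A0 → Good A1 → Good A2 → Good L →
  nf ≤ 3 → frogOK R A0 A1 A2 L nf = true → ∀ N < 15, ∀ m t, m ≤ 15 → t < 4 →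
    (9 + nf) * dg R (64 * (N + 1) + (4 * m + t)) ≤
      3 * ((if m = 0 then 0 else dg R (64 * N + (4 * (m - 1) + t))) +
        if m = 15 then dg R (64 * N + (4 * 15 + t)) else 0) +
      2 * (dg A0 (64 * N + (4 * m + t)) + dg A1 (64 * N + (4 * m + t)) +
        dg A2 (64 * N + (4 * m + t))) +
      nf * dg L (64 * (N + 1) + (4 * m + t))

/-- D3: the rules for pending runs -/
def KProc : Prop :=
  (∀ (T : Tr) (C K' R : ℕ), GoodE C → Good R → (∀ t < 4, Good (look T (K' + wT t))) →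
    procF T C K' R = true → ∀ l < 64, 2 ^ 28 * dg R l ≤
      ∑ r ∈ Finset.range 16, ∑ t ∈ Finset.range 4,
        dg C (4 * r + t) * dg (look T (K' + wT t)) (64 * r + l)) ∧
  (∀ (T : Tr) (C k K' R : ℕ), 1 ≤ k → k ≤ 3 → GoodE C → Good R →
    (∀ t ≤ k, Good (look T (K' + wT t))) → procV T C k K' R = true → ∀ l < 64,
      2 ^ 28 * dg R l ≤ dg C k * dg (look T (K' + wT k)) l +
        ∑ r ∈ Finset.range 16, ∑ t ∈ Finset.range k,
          dg C (4 * r + t) * dg (look T (K' + wT t)) (64 * r + l)) ∧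
  (∀ (T : Tr) (K' R : ℕ), Good R → Good (look T (K' + w 6)) → Good (look T (K' + w 5)) →
    procL T K' R = true → ∀ l < 64, 3 * dg R l ≤
      2 * dg (look T (K' + w 6)) l + dg (look T (K' + w 5)) (64 + l))

/-- entry of the table -/
noncomputable def en (T : Tr) (a b c N l : ℕ) : ℕ := dg (look T (w a + (w b + w c))) (64 * N + l)

/-- D4: the laws of the next level, lanes -/
def KNx : Prop := ∀ (T : Tr) (Q : Lw), (∀ s : Fin 3 → St, Good (look T (keyS s))) →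
  chkN T Q = true → GoodP Q ∧ ∀ l < 64, l ≠ 0 →
    660 * dg Q.F1 l ≤ 540 * en T 7 7 9 1 l + 108 * en T 7 8 9 1 l + 12 * en T 8 8 9 1 l ∧
    435600 * dg Q.F2 l ≤ 97200 * en T 7 7 10 1 l + 40824 * en T 7 8 10 1 l +
      235224 * en T 7 9 9 1 l + 7176 * en T 8 8 10 1 l + 55176 * en T 8 9 9 1 l ∧
    660 * dg Q.T1 l ≤ 396 * en T 0 0 7 0 l + 44 * en T 0 0 8 0 l + 220 * en T 0 0 9 0 l ∧
    660 * dg Q.T2 l ≤ 180 * en T 0 7 7 0 l + 36 * en T 0 7 8 0 l + 396 * en T 0 7 9 0 l +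
      4 * en T 0 8 8 0 l + 44 * en T 0 8 9 0 l ∧
    660 * dg Q.T3 l ≤ 540 * en T 7 7 9 0 l + 108 * en T 7 8 9 0 l + 12 * en T 8 8 9 0 l

/-- D5: the averages over the starts -/
def KSt : Prop := ∀ g : ℕ → ℝ,
  (∑ B : Finset (Fin 3), pB B * ((1 / 3) * ∑ i : Fin 3, g (keyS (start 3 [(B, i)]))) =
    (540 * g (w 7 + (w 7 + w 9)) + 108 * g (w 7 + (w 8 + w 9)) +
      12 * g (w 8 + (w 8 + w 9))) / 660) ∧
  (∑ B : Finset (Fin 3), pB B * ((1 / 3) * ∑ i : Fin 3, ∑ B' : Finset (Fin 3), pB B' *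
    ((1 / 3) * ∑ i' : Fin 3, g (keyS (start 3 [(B, i), (B', i')])))) =
    (97200 * g (w 7 + (w 7 + w 10)) + 40824 * g (w 7 + (w 8 + w 10)) +
      235224 * g (w 7 + (w 9 + w 9)) + 7176 * g (w 8 + (w 8 + w 10)) +
      55176 * g (w 8 + (w 9 + w 9))) / 435600) ∧
  (∑ B : Finset (Fin 3), pB B * ((1 / 3) * ∑ i : Fin 3, g (keyS (start 1 [(B, i)]))) =
    (396 * g (w 0 + (w 0 + w 7)) + 44 * g (w 0 + (w 0 + w 8)) +
      220 * g (w 0 + (w 0 + w 9))) / 660) ∧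
  (∑ B : Finset (Fin 3), pB B * ((1 / 3) * ∑ i : Fin 3, g (keyS (start 2 [(B, i)]))) =
    (180 * g (w 0 + (w 7 + w 7)) + 36 * g (w 0 + (w 7 + w 8)) + 396 * g (w 0 + (w 7 + w 9)) +
      4 * g (w 0 + (w 8 + w 8)) + 44 * g (w 0 + (w 8 + w 9))) / 660)

/-- D6: the next level -/
def KNxt : Prop := ∀ (T : Tr) (Q : Lw), (∀ s : Fin 3 → St, Good (look T (keyS s))) →
  chkN T Q = true → GoodP Q ∧ Nxt 15 (XT T) (lawsK Q)

/-- D7: the table -/
def KTab : Prop := ∀ (T : Tr) (P : Lw), GoodP P → chkAll T P = true →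
  (∀ s : Fin 3 → St, Good (look T (keyS s))) ∧ Tab 15 (lawsK P) (XT T)

/-- D8: the program -/
def KRun : Prop := ∀ P Q : Lw, step P Q = true → ∃ T, chkAll T P = true ∧ chkN T Q = true

end Pool.Agent.H80.T3.K
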